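import Mathlib

set_option autoImplicit false

namespace Pool.Agent.H4.Cube

open Polynomial

/-- Schur: a nonconstant integer polynomial has roots modulo arbitrarily large primes. -/
theorem exists_prime_root (g : ℤ[X]) (hg : 0 < g.natDegree) (N : ℕ) :
    ∃ p : ℕ, p.Prime ∧ N < p ∧ ∃ a : ℤ, (p : ℤ) ∣ g.eval a := by
  by_cases h0 : g.eval 0 = 0
  · obtain ⟨p, hp, hpp⟩ := Nat.exists_infinite_primes (N + 1)
    exact ⟨p, hpp, hp, 0, by rw [h0]; exact dvd_zero _⟩
  · set c : ℤ := g.eval 0 with hc
    -- finitely many integers x with g x = ± c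
    have hfin : ∀ v : ℤ, {x : ℤ | g.eval x = v}.Finite := by
      intro v
      have hne : g - C v ≠ 0 := by
        intro h
        have : g = C v := sub_eq_zero.1 h
        rw [this, natDegree_C] at hg
        exact lt_irrefl _ hg
      refine ((g - C v).roots.toFinset.finite_toSet).subset ?_
      intro x hx
      have hx' : g.eval x = v := hx
      rw [Finset.mem_coe, Multiset.mem_toFinset, mem_roots hne]
      simp [IsRoot, hx']
    have hM : (0 : ℤ) < (N.factorial : ℤ) := by exact_mod_cast N.factorial_pos
    -- choose t with g (c * N! * t) ≠ ± c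
    have hex : ∃ t : ℤ, g.eval (c * N.factorial * t) ≠ c ∧ g.eval (c * N.factorial * t) ≠ -c := by
      by_contra hcon
      push Not at hcon
      have hsub : Set.range (fun t : ℤ => c * N.factorial * t) ⊆
          {x : ℤ | g.eval x = c} ∪ {x : ℤ | g.eval x = -c} := by
        rintro _ ⟨t, rfl⟩
        by_cases h : g.eval (c * N.factorial * t) = c
        · exact Or.inl h
        · exact Or.inr (hcon t h)
      have hinf : (Set.range (fun t : ℤ => c * N.factorial * t)).Infinite := by
        apply Set.infinite_range_of_injective
        intro a b hab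
        exact mul_left_cancel₀ (mul_ne_zero h0 hM.ne') hab
      exact hinf (((hfin c).union (hfin (-c))).subset hsub)
    obtain ⟨t, ht1, ht2⟩ := hex
    -- g (c N! t) = c (1 + N! * s)
    have hdvd : (c * N.factorial * t) ∣ g.eval (c * N.factorial * t) - c := by
      have := g.sub_dvd_eval_sub (c * N.factorial * t) 0
      simpa [hc] using this
    obtain ⟨s, hs⟩ := hdvd
    have hval : g.eval (c * N.factorial * t) = c * (1 + N.factorial * (t * s)) := by
      linear_combination hs
    set w : ℤ := 1 + N.factorial * (t * s) with hw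
    have hw1 : w.natAbs ≠ 1 := by
      intro h
      rcases Int.natAbs_eq w with h' | h'
      · rw [h] at h'
        apply ht1
        rw [hval, h']; simp
      · rw [h] at h'
        apply ht2
        rw [hval, h']; simp
    obtain ⟨p, hp, hpw⟩ := Nat.exists_prime_and_dvd hw1
    have hpw' : (p : ℤ) ∣ w := Int.natCast_dvd.2 hpw
    refine ⟨p, hp, ?_, c * N.factorial * t, ?_⟩
    · by_contra hle
      push Not at hle
      have h1 : (p : ℤ) ∣ (N.factorial : ℤ) := by
        exact_mod_cast (Nat.Prime.dvd_factorial hp).2 hle
      have h2 : (p : ℤ) ∣ 1 := by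
        have h3 : (p : ℤ) ∣ N.factorial * (t * s) := Dvd.dvd.mul_right h1 _
        have := dvd_sub hpw' h3
        simpa [hw] using this
      have := Int.isUnit_iff.1 (isUnit_of_dvd_one h2)
      have h2p := hp.two_le
      omega
    · rw [hval]
      exact Dvd.dvd.mul_left hpw' _

end Pool.Agent.H4.Cube
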