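import Mathlib

set_option autoImplicit false

namespace Pool.Agent.H4.Cube

open MeasureTheory

theorem integral_monomial_one (k : ℕ) :
    ∫ t in Set.Icc (0 : ℝ) 1, ((t : ℝ) : ℂ) ^ k = 1 / ((k : ℂ) + 1) := by
  rw [integral_Icc_eq_integral_Ioc, ← intervalIntegral.integral_of_le zero_le_one]
  have h : ∀ t : ℝ, ((t : ℝ) : ℂ) ^ k = ((t ^ k : ℝ) : ℂ) := fun t => by push_cast; rfl
  simp_rw [h]
  rw [intervalIntegral.integral_ofReal, integral_pow]
  push_cast
  simp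

theorem integral_monomial {n : ℕ} (κ : Fin n → ℕ) :
    ∫ x in Set.Icc (0 : Fin n → ℝ) 1, ∏ i, ((x i : ℝ) : ℂ) ^ (κ i) =
      ∏ i, (1 / ((κ i : ℂ) + 1)) := by
  have h : (volume : Measure (Fin n → ℝ)).restrict (Set.Icc (0 : Fin n → ℝ) 1) =
      Measure.pi fun _ => (volume : Measure ℝ).restrict (Set.Icc 0 1) := by
    rw [← Measure.restrict_pi_pi, volume_pi]
    congr 1
    exact (Set.pi_univ_Icc _ _).symm
  rw [h]
  rw [integral_fintype_prod_eq_prod (fun i (t : ℝ) => ((t : ℝ) : ℂ) ^ (κ i))]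
  exact Finset.prod_congr rfl fun i _ => integral_monomial_one (κ i)

theorem integral_eval {n : ℕ} (P : MvPolynomial (Fin n) ℂ) :
    ∫ x in Set.Icc (0 : Fin n → ℝ) 1, MvPolynomial.eval (fun i => ((x i : ℝ) : ℂ)) P =
      ∑ κ ∈ P.support, P.coeff κ * ∏ i, (1 / ((κ i : ℂ) + 1)) := by
  have h : ∀ x : Fin n → ℝ, MvPolynomial.eval (fun i => ((x i : ℝ) : ℂ)) P =
      ∑ κ ∈ P.support, P.coeff κ * ∏ i, ((x i : ℝ) : ℂ) ^ (κ i) := by
    intro x
    rw [MvPolynomial.eval_eq']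
  simp_rw [h]
  rw [integral_finsetSum]
  · refine Finset.sum_congr rfl fun κ _ => ?_
    rw [integral_const_mul, integral_monomial]
  · intro κ _
    apply ContinuousOn.integrableOn_compact isCompact_Icc
    fun_prop

end Pool.Agent.H4.Cube
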