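import Mathlib

set_option autoImplicit false

namespace Pool.Agent.H4.Cube

open MvPolynomial

variable {n : ℕ} {K : Type*} [Field K]

/-- The linear functional `x^κ ↦ ∏ (κ_i + 1)⁻¹`. -/
noncomputable def Lf : MvPolynomial (Fin n) K →ₗ[K] K :=
  (basisMonomials (Fin n) K).constr K fun κ => ∏ i, (((κ i + 1 : ℕ) : K))⁻¹

theorem Lf_monomial (κ : Fin n →₀ ℕ) (c : K) :
    Lf (monomial κ c) = c * ∏ i, (((κ i + 1 : ℕ) : K))⁻¹ := by
  have h : monomial κ c = c • (basisMonomials (Fin n) K) κ := by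
    rw [coe_basisMonomials, smul_monomial, smul_eq_mul, mul_one]
  rw [h, map_smul, Lf, Module.Basis.constr_basis, smul_eq_mul]

theorem Lf_eq (P : MvPolynomial (Fin n) K) :
    Lf P = ∑ κ ∈ P.support, P.coeff κ * ∏ i, (((κ i + 1 : ℕ) : K))⁻¹ := by
  conv_lhs => rw [P.as_sum]
  rw [map_sum]
  exact Finset.sum_congr rfl fun κ _ => Lf_monomial κ _

theorem Lf_one : Lf (1 : MvPolynomial (Fin n) K) = 1 := by
  have := Lf_monomial (K := K) (0 : Fin n →₀ ℕ) 1
  simpa using this

theorem Lf_X_pow_mul (i : Fin n) (k : ℕ) (Q : MvPolynomial (Fin n) K) (hQ : i ∉ Q.vars) :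
    Lf (X i ^ k * Q) = ((k + 1 : ℕ) : K)⁻¹ * Lf Q := by
  classical
  have h0 : ∀ κ ∈ Q.support, κ i = 0 := by
    intro κ hκ
    by_contra h
    exact hQ ((mem_vars_iff_mem_support i).2 ⟨κ, hκ, Finsupp.mem_support_iff.2 h⟩)
  conv_lhs => rw [Q.as_sum]
  rw [Finset.mul_sum, map_sum, Lf_eq, Finset.mul_sum]
  refine Finset.sum_congr rfl fun κ hκ => ?_
  rw [X_pow_eq_monomial, monomial_mul, one_mul, Lf_monomial]
  rw [← Finset.mul_prod_erase _ _ (Finset.mem_univ i)]
  rw [← Finset.mul_prod_erase Finset.univ (fun j => (((κ j + 1 : ℕ) : K))⁻¹) (Finset.mem_univ i)]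
  have h1 : ∏ j ∈ Finset.univ.erase i, ((((Finsupp.single i k + κ) j + 1 : ℕ) : K))⁻¹ =
      ∏ j ∈ Finset.univ.erase i, (((κ j + 1 : ℕ) : K))⁻¹ := by
    refine Finset.prod_congr rfl fun j hj => ?_
    rw [Finsupp.add_apply, Finsupp.single_apply, if_neg (Finset.ne_of_mem_erase hj).symm, zero_add]
  rw [h1, Finsupp.add_apply, Finsupp.single_eq_same, h0 κ hκ]
  simp
  ring

/-- Fundamental theorem of calculus in the variable `i`. -/
theorem Lf_ftc (i : Fin n) (b : K) (N : ℕ) (A R : MvPolynomial (Fin n) K) (hA : i ∉ A.vars)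
    (hR : i ∉ R.vars) (hN : ∀ k ≤ N, ((k + 1 : ℕ) : K) ≠ 0) :
    b * ((N + 1 : ℕ) : K) * Lf ((A + C b * X i) ^ N * R) =
      Lf ((A + C b) ^ (N + 1) * R) - Lf (A ^ (N + 1) * R) := by
  classical
  have hfree : ∀ j, i ∉ (A ^ j * R).vars := by
    intro j h
    rcases Finset.mem_union.1 (vars_mul _ _ h) with h | h
    · exact hA (vars_pow _ _ h)
    · exact hR h
  -- left side
  have hL : Lf ((A + C b * X i) ^ N * R) =
      ∑ k ∈ Finset.range (N + 1), (N.choose k : K) * b ^ k * ((k + 1 : ℕ) : K)⁻¹ *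
        Lf (A ^ (N - k) * R) := by
    have e : (A + C b * X i) ^ N * R =
        ∑ k ∈ Finset.range (N + 1), ((N.choose k : K) * b ^ k) • (X i ^ k * (A ^ (N - k) * R)) := by
      rw [add_comm A, add_pow, Finset.sum_mul]
      refine Finset.sum_congr rfl fun k _ => ?_
      rw [smul_eq_C_mul, map_mul, map_pow, mul_pow, map_natCast]
      ring
    rw [e, map_sum]
    refine Finset.sum_congr rfl fun k _ => ?_
    rw [map_smul, Lf_X_pow_mul i k _ (hfree _), smul_eq_mul]
    ring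
  have hRt : Lf ((A + C b) ^ (N + 1) * R) - Lf (A ^ (N + 1) * R) =
      ∑ k ∈ Finset.range (N + 1), ((N + 1).choose (k + 1) : K) * b ^ (k + 1) *
        Lf (A ^ (N - k) * R) := by
    have e : (A + C b) ^ (N + 1) * R - A ^ (N + 1) * R =
        ∑ k ∈ Finset.range (N + 1), (((N + 1).choose (k + 1) : K) * b ^ (k + 1)) •
          (A ^ (N - k) * R) := by
      rw [add_comm A, add_pow, Finset.sum_range_succ', add_mul, Finset.sum_mul]
      simp only [pow_zero, tsub_zero, one_mul, Nat.choose_zero_right, Nat.cast_one, mul_one]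
      rw [add_sub_cancel_right]
      refine Finset.sum_congr rfl fun k _ => ?_
      rw [smul_eq_C_mul, map_mul, map_pow, map_natCast, Nat.succ_sub_succ]
      ring
    rw [← map_sub, e, map_sum]
    refine Finset.sum_congr rfl fun k _ => ?_
    rw [map_smul, smul_eq_mul]
  rw [hL, hRt, Finset.mul_sum]
  refine Finset.sum_congr rfl fun k hk => ?_
  have hk' : ((k + 1 : ℕ) : K) ≠ 0 := hN k (by have := Finset.mem_range.1 hk; omega)
  have hch : ((N + 1 : ℕ) : K) * (N.choose k : K) = ((N + 1).choose (k + 1) : K) * ((k + 1 : ℕ) : K) := by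
    have := congrArg (Nat.cast : ℕ → K) (Nat.add_one_mul_choose_eq N k)
    push_cast at this ⊢
    exact this
  have : ((N + 1).choose (k + 1) : K) = ((N + 1 : ℕ) : K) * (N.choose k : K) * ((k + 1 : ℕ) : K)⁻¹ := by
    rw [hch, mul_assoc, mul_inv_cancel₀ hk', mul_one]
  rw [this]
  ring

theorem Lf_linear_pow (β : Fin n → K) (G : Finset (Fin n)) (hβ : ∀ i ∈ G, β i ≠ 0) :
    ∀ (α : K) (N : ℕ) (R : MvPolynomial (Fin n) K), (∀ i ∈ G, i ∉ R.vars) →
      (∀ k < N + G.card, ((k + 1 : ℕ) : K) ≠ 0) →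
      (∏ i ∈ G, β i) * (∏ j ∈ Finset.range G.card, ((N + j + 1 : ℕ) : K)) *
        Lf ((C α + ∑ i ∈ G, C (β i) * X i) ^ N * R) =
      (∑ S ∈ G.powerset, (-1) ^ (G.card - S.card) * (α + ∑ i ∈ S, β i) ^ (N + G.card)) *
        Lf R := by
  classical
  induction G using Finset.induction_on with
  | empty =>
    intro α N R _ _
    simp only [Finset.prod_empty, Finset.card_empty, Finset.range_zero, Finset.sum_empty,
      add_zero, Finset.powerset_empty, Finset.sum_singleton]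
    rw [← C_pow, ← smul_eq_C_mul, map_smul, smul_eq_mul]
    ring
  | insert i G hi ih =>
    intro α N R hR hN
    rw [Finset.card_insert_of_notMem hi] at hN
    have hβi : β i ≠ 0 := hβ i (Finset.mem_insert_self _ _)
    have hβG : ∀ j ∈ G, β j ≠ 0 := fun j hj => hβ j (Finset.mem_insert_of_mem hj)
    have hRi : i ∉ R.vars := hR i (Finset.mem_insert_self _ _)
    have hRG : ∀ j ∈ G, j ∉ R.vars := fun j hj => hR j (Finset.mem_insert_of_mem hj)
    have hA : i ∉ (C α + ∑ j ∈ G, C (β j) * X j : MvPolynomial (Fin n) K).vars := by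
      intro h
      rcases Finset.mem_union.1 (vars_add_subset _ _ h) with h | h
      · simp at h
      · have := vars_sum_subset G (fun j => C (β j) * X j : Fin n → MvPolynomial (Fin n) K) h
        obtain ⟨j, hj, hj'⟩ := Finset.mem_biUnion.1 this
        rcases Finset.mem_union.1 (vars_mul _ _ hj') with h | h
        · simp at h
        · rw [vars_X, Finset.mem_singleton] at h
          exact hi (h ▸ hj)
    have hftc := Lf_ftc i (β i) N (C α + ∑ j ∈ G, C (β j) * X j) R hA hRi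
      (fun k hk => hN k (by omega))
    have e1 : (C α + ∑ j ∈ insert i G, C (β j) * X j : MvPolynomial (Fin n) K) =
        C α + ∑ j ∈ G, C (β j) * X j + C (β i) * X i := by
      rw [Finset.sum_insert hi]; ring
    have e2 : (C α + ∑ j ∈ G, C (β j) * X j + C (β i) : MvPolynomial (Fin n) K) =
        C (α + β i) + ∑ j ∈ G, C (β j) * X j := by
      rw [map_add]; ring
    rw [e2] at hftc
    have h1 := ih hβG (α + β i) (N + 1) R hRG (fun k hk => hN k (by omega))
    have h2 := ih hβG α (N + 1) R hRG (fun k hk => hN k (by omega))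
    rw [e1, Finset.prod_insert hi, Finset.card_insert_of_notMem hi, Finset.prod_range_succ',
      Finset.sum_powerset_insert hi]
    have e3 : ∏ j ∈ Finset.range G.card, ((N + (j + 1) + 1 : ℕ) : K) =
        ∏ j ∈ Finset.range G.card, ((N + 1 + j + 1 : ℕ) : K) := by
      refine Finset.prod_congr rfl fun j _ => ?_
      congr 1; ring
    rw [e3]
    have e4 : β i * (∏ j ∈ G, β j) * ((∏ j ∈ Finset.range G.card, ((N + 1 + j + 1 : ℕ) : K)) *
          ((N + 0 + 1 : ℕ) : K)) *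
          Lf ((C α + ∑ j ∈ G, C (β j) * X j + C (β i) * X i) ^ N * R) =
        (∏ j ∈ G, β j) * (∏ j ∈ Finset.range G.card, ((N + 1 + j + 1 : ℕ) : K)) *
          (β i * ((N + 1 : ℕ) : K) *
            Lf ((C α + ∑ j ∈ G, C (β j) * X j + C (β i) * X i) ^ N * R)) := by
      rw [add_zero]; ring
    rw [e4, hftc, mul_sub, h1, h2, add_mul, ← sub_mul, ← add_mul]
    congr 1
    have e5 : ∑ S ∈ G.powerset, (-1 : K) ^ (G.card + 1 - S.card) *
        (α + ∑ j ∈ S, β j) ^ (N + (G.card + 1)) =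
        - ∑ S ∈ G.powerset, (-1 : K) ^ (G.card - S.card) * (α + ∑ j ∈ S, β j) ^ (N + 1 + G.card) := by
      rw [← Finset.sum_neg_distrib]
      refine Finset.sum_congr rfl fun S hS => ?_
      have hc := Finset.card_le_card (Finset.mem_powerset.1 hS)
      rw [Nat.sub_add_comm hc, pow_succ, show N + (G.card + 1) = N + 1 + G.card by ring]
      ring
    have e6 : ∑ S ∈ G.powerset, (-1 : K) ^ (G.card + 1 - (insert i S).card) *
        (α + ∑ j ∈ insert i S, β j) ^ (N + (G.card + 1)) =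
        ∑ S ∈ G.powerset, (-1 : K) ^ (G.card - S.card) *
          (α + β i + ∑ j ∈ S, β j) ^ (N + 1 + G.card) := by
      refine Finset.sum_congr rfl fun S hS => ?_
      have hiS : i ∉ S := fun h => hi (Finset.mem_powerset.1 hS h)
      rw [Finset.card_insert_of_notMem hiS, Finset.sum_insert hiS, Nat.add_sub_add_right,
        show N + (G.card + 1) = N + 1 + G.card by ring]
      ring
    rw [e5, e6]
    ring

theorem Lf_linear_pow' (β : Fin n → K) (G : Finset (Fin n)) (hβ : ∀ i ∈ G, β i ≠ 0)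
    (α : K) (N : ℕ) (R : MvPolynomial (Fin n) K) (hR : ∀ i ∈ G, i ∉ R.vars)
    (hN : ∀ k < N + G.card, ((k + 1 : ℕ) : K) ≠ 0)
    (hpow : ∀ S ⊆ G, (α + ∑ i ∈ S, β i) ^ (N + G.card) = (α + ∑ i ∈ S, β i) ^ G.card) :
    (∏ j ∈ Finset.range G.card, ((N + j + 1 : ℕ) : K)) *
        Lf ((C α + ∑ i ∈ G, C (β i) * X i) ^ N * R) =
      (∏ j ∈ Finset.range G.card, ((j + 1 : ℕ) : K)) * Lf R := by
  classical
  have h1 := Lf_linear_pow β G hβ α N R hR hN
  have h2 := Lf_linear_pow β G hβ α 0 R hR (fun k hk => hN k (by omega))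
  have h3 : ∑ S ∈ G.powerset, (-1 : K) ^ (G.card - S.card) * (α + ∑ i ∈ S, β i) ^ (N + G.card) =
      ∑ S ∈ G.powerset, (-1 : K) ^ (G.card - S.card) * (α + ∑ i ∈ S, β i) ^ (0 + G.card) := by
    refine Finset.sum_congr rfl fun S hS => ?_
    rw [hpow S (Finset.mem_powerset.1 hS), zero_add]
  rw [h3, ← h2, mul_assoc, mul_assoc] at h1
  have hβ0 : ∏ i ∈ G, β i ≠ 0 := Finset.prod_ne_zero_iff.2 hβ
  have h4 := mul_left_cancel₀ hβ0 h1
  rw [h4]
  simp

theorem Lf_prod {τ : Type*} [DecidableEq τ] (β : τ → Fin n → K) (G : τ → Finset (Fin n))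
    (hβ : ∀ t, ∀ i ∈ G t, β t i ≠ 0) (hG : ∀ s t, s ≠ t → Disjoint (G s) (G t))
    (α : τ → K) (N : τ → ℕ)
    (hN : ∀ t, ∀ k < N t + (G t).card, ((k + 1 : ℕ) : K) ≠ 0)
    (hpow : ∀ t, ∀ S ⊆ G t, (α t + ∑ i ∈ S, β t i) ^ (N t + (G t).card) =
      (α t + ∑ i ∈ S, β t i) ^ (G t).card) (T : Finset τ) :
    (∏ t ∈ T, ∏ j ∈ Finset.range (G t).card, ((N t + j + 1 : ℕ) : K)) *
        Lf (∏ t ∈ T, (C (α t) + ∑ i ∈ G t, C (β t i) * X i) ^ N t) =
      ∏ t ∈ T, ∏ j ∈ Finset.range (G t).card, ((j + 1 : ℕ) : K) := by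
  classical
  induction T using Finset.induction_on with
  | empty => simp [Lf_one]
  | insert t T ht ih =>
    rw [Finset.prod_insert ht, Finset.prod_insert ht, Finset.prod_insert ht]
    have hR : ∀ i ∈ G t,
        i ∉ (∏ s ∈ T, (C (α s) + ∑ i ∈ G s, C (β s i) * X i : MvPolynomial (Fin n) K) ^ N s).vars := by
      intro i hi h
      have h1 := vars_prod (s := T)
        (fun s => (C (α s) + ∑ i ∈ G s, C (β s i) * X i : MvPolynomial (Fin n) K) ^ N s) h
      obtain ⟨s, hs, hs'⟩ := Finset.mem_biUnion.1 h1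
      have hst : s ≠ t := fun e => ht (e ▸ hs)
      have h2 := vars_pow _ _ hs'
      rcases Finset.mem_union.1 (vars_add_subset _ _ h2) with h | h
      · simp at h
      · have := vars_sum_subset (G s) (fun j => C (β s j) * X j : Fin n → MvPolynomial (Fin n) K) h
        obtain ⟨j, hj, hj'⟩ := Finset.mem_biUnion.1 this
        rcases Finset.mem_union.1 (vars_mul _ _ hj') with h | h
        · simp at h
        · rw [vars_X, Finset.mem_singleton] at h
          exact (Finset.disjoint_left.1 (hG s t hst) hj) (h ▸ hi)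
    have h1 := Lf_linear_pow' (β t) (G t) (hβ t) (α t) (N t) _ hR (hN t) (hpow t)
    calc _ = (∏ s ∈ T, ∏ j ∈ Finset.range (G s).card, ((N s + j + 1 : ℕ) : K)) *
        ((∏ j ∈ Finset.range (G t).card, ((N t + j + 1 : ℕ) : K)) *
          Lf ((C (α t) + ∑ i ∈ G t, C (β t i) * X i) ^ N t *
            ∏ s ∈ T, (C (α s) + ∑ i ∈ G s, C (β s i) * X i) ^ N s)) := by ring
      _ = (∏ j ∈ Finset.range (G t).card, ((j + 1 : ℕ) : K)) *
          ((∏ s ∈ T, ∏ j ∈ Finset.range (G s).card, ((N s + j + 1 : ℕ) : K)) *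
            Lf (∏ s ∈ T, (C (α s) + ∑ i ∈ G s, C (β s i) * X i) ^ N s)) := by
        rw [h1]; ring
      _ = _ := by rw [ih]

end Pool.Agent.H4.Cube
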