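import Pool.Agent.H4.Cube.PartA

set_option autoImplicit false

namespace Pool.Agent.H4.Cube

open Polynomial


/-- The homogenisation used to clear denominators. -/
noncomputable def homog {ι : Type*} [Fintype ι] (D : ℤ) (Q : ι → ℤ[X])
    (F : MvPolynomial ι ℤ) : ℤ[X] :=
  ∑ κ ∈ F.support, C (F.coeff κ) * (C D ^ (F.totalDegree - ∑ i, κ i) * ∏ i, Q i ^ κ i)

theorem map_homog {ι R : Type*} [Fintype ι] [CommRing R] (ψ : ℤ[X] →+* R) (x : ι → R) (D : ℤ)
    (Q : ι → ℤ[X]) (h : ∀ i, (D : R) * x i = ψ (Q i)) (F : MvPolynomial ι ℤ) :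
    ψ (homog D Q F) = (D : R) ^ F.totalDegree * MvPolynomial.aeval x F := by
  have hC : ∀ c : ℤ, ψ (C c) = (c : R) := fun c => by
    simp
  rw [homog, map_sum, MvPolynomial.aeval_def, MvPolynomial.eval₂_eq', Finset.mul_sum]
  refine Finset.sum_congr rfl fun κ hκ => ?_
  have hdeg : ∑ i, κ i ≤ F.totalDegree := by
    have := MvPolynomial.le_totalDegree hκ
    rwa [Finsupp.sum_fintype _ _ (fun _ => rfl)] at this
  have h1 : ∏ i, ψ (Q i) ^ κ i = (D : R) ^ (∑ i, κ i) * ∏ i, x i ^ κ i := by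
    simp_rw [← h, mul_pow]
    rw [Finset.prod_mul_distrib, Finset.prod_pow_eq_pow_sum]
  rw [map_mul, map_mul, map_pow, hC, hC, map_prod]
  simp_rw [map_pow]
  rw [h1, ← mul_assoc ((D : R) ^ _) ((D : R) ^ _), ← pow_add, Nat.sub_add_cancel hdeg]
  simp only [eq_intCast]
  ring

theorem spec_numberField {L : Type*} [Field L] [Algebra ℚ L] [FiniteDimensional ℚ L]
    {ι : Type*} [Fintype ι] (x : ι → L) (N : ℕ) :
    ∃ p : ℕ, p.Prime ∧ N < p ∧ ∃ t : ι → ZMod p, ∀ F : MvPolynomial ι ℤ,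
      MvPolynomial.aeval x F = 0 → MvPolynomial.aeval t F = 0 := by
  classical
  have : CharZero L := algebraRat.charZero L
  obtain ⟨m, hm0, hm⟩ : ∃ m : ℤ, m ≠ 0 ∧
      IsIntegral ℤ (m • (Field.powerBasisOfFiniteOfSeparable ℚ L).gen) := by
    have halg : IsAlgebraic ℤ (Field.powerBasisOfFiniteOfSeparable ℚ L).gen := by
      have : IsAlgebraic ℚ (Field.powerBasisOfFiniteOfSeparable ℚ L).gen :=
        Algebra.IsAlgebraic.isAlgebraic _
      exact (IsFractionRing.isAlgebraic_iff ℤ ℚ L).2 this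
    obtain ⟨y, hy, hy'⟩ := halg.exists_integral_multiple
    exact ⟨y, hy, hy'⟩
  set g0 := (Field.powerBasisOfFiniteOfSeparable ℚ L).gen with hg0
  set θ : L := m • g0 with hθ
  have hmL : (m : L) ≠ 0 := by exact_mod_cast hm0
  -- every element is a rational polynomial in θ
  have hpoly : ∀ y : L, ∃ P : ℚ[X], y = aeval θ P := by
    intro y
    obtain ⟨P, hP⟩ := (Field.powerBasisOfFiniteOfSeparable ℚ L).exists_eq_aeval' y
    refine ⟨P.comp (C ((m : ℚ)⁻¹) * X), ?_⟩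
    rw [hP, aeval_comp]
    congr 1
    simp only [map_mul, aeval_C, aeval_X, hθ, zsmul_eq_mul, map_inv₀, map_intCast]
    rw [← mul_assoc, inv_mul_cancel₀ hmL, one_mul]
  -- clear denominators
  have hint : ∀ y : L, ∃ (b : ℤ) (Q : ℤ[X]), b ≠ 0 ∧ (b : L) * y = aeval θ Q := by
    intro y
    obtain ⟨P, hP⟩ := hpoly y
    obtain ⟨b, hb, hbP⟩ := IsLocalization.integerNormalization_spec (nonZeroDivisors ℤ) P
    refine ⟨b, IsLocalization.integerNormalization (nonZeroDivisors ℤ) P,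
      nonZeroDivisors.ne_zero hb, ?_⟩
    have h2 : (IsLocalization.integerNormalization (nonZeroDivisors ℤ) P).map
        (algebraMap ℤ ℚ) = C (b : ℚ) * P := by
      rw [hbP, zsmul_eq_mul]
      simp
    have h3 : aeval θ (IsLocalization.integerNormalization (nonZeroDivisors ℤ) P) =
        aeval θ ((IsLocalization.integerNormalization (nonZeroDivisors ℤ) P).map
          (algebraMap ℤ ℚ)) := by
      rw [aeval_map_algebraMap]
    rw [h3, h2, map_mul, ← hP]
    simp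
  choose b Q hb hbQ using fun i => hint (x i)
  set D : ℤ := ∏ i, b i with hD
  have hD0 : D ≠ 0 := Finset.prod_ne_zero_iff.2 fun i _ => hb i
  set Q' : ι → ℤ[X] := fun i => C (∏ j ∈ Finset.univ.erase i, b j) * Q i with hQ'
  have hDx : ∀ i, (D : L) * x i = aeval θ (Q' i) := by
    intro i
    simp only [hQ', map_mul]
    rw [← hbQ i]
    have : D = (∏ j ∈ Finset.univ.erase i, b j) * b i := by
      rw [hD, Finset.prod_erase_mul _ _ (Finset.mem_univ i)]
    rw [this]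
    push_cast
    simp
    ring
  have hdeg : 0 < (minpoly ℤ θ).natDegree := minpoly.natDegree_pos hm
  obtain ⟨p, hp, hpN, a, ha⟩ := exists_prime_root (minpoly ℤ θ) hdeg (max N D.natAbs)
  have hpf : Fact p.Prime := ⟨hp⟩
  have hDp : (D : ZMod p) ≠ 0 := by
    intro h
    rw [ZMod.intCast_zmod_eq_zero_iff_dvd] at h
    have h1 : p ∣ D.natAbs := Int.natCast_dvd.1 h
    have h2 := Nat.le_of_dvd (Int.natAbs_pos.2 hD0) h1
    have := le_max_right N D.natAbs
    omega
  refine ⟨p, hp, lt_of_le_of_lt (le_max_left _ _) hpN,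
    fun i => (D : ZMod p)⁻¹ * (eval₂RingHom (Int.castRingHom (ZMod p)) (a : ZMod p)) (Q' i), ?_⟩
  intro F hF
  set t : ι → ZMod p := fun i => (D : ZMod p)⁻¹ *
    (eval₂RingHom (Int.castRingHom (ZMod p)) (a : ZMod p)) (Q' i) with ht
  have h1 := map_homog (aeval θ : ℤ[X] →ₐ[ℤ] L).toRingHom x D Q' (fun i => hDx i) F
  rw [hF, mul_zero] at h1
  have h2 : aeval θ (homog D Q' F) = 0 := h1
  have h3 := minpoly.isIntegrallyClosed_dvd hm h2
  obtain ⟨R, hR⟩ := h3
  have h4 := map_homog (eval₂RingHom (Int.castRingHom (ZMod p)) (a : ZMod p)) t D Q' (fun i => by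
    simp only [ht]
    rw [← mul_assoc, mul_inv_cancel₀ hDp, one_mul]) F
  have h5 : (eval₂RingHom (Int.castRingHom (ZMod p)) (a : ZMod p)) (homog D Q' F) = 0 := by
    rw [hR, map_mul]
    have : (eval₂RingHom (Int.castRingHom (ZMod p)) (a : ZMod p)) (minpoly ℤ θ) = 0 := by
      rw [coe_eval₂RingHom]
      have h6 : eval₂ (Int.castRingHom (ZMod p)) (a : ZMod p) (minpoly ℤ θ) =
          (((minpoly ℤ θ).eval a : ℤ) : ZMod p) := by
        simp
      rw [h6]
      exact (ZMod.intCast_zmod_eq_zero_iff_dvd _ _).2 ha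
    rw [this, zero_mul]
  rw [h5] at h4
  rcases mul_eq_zero.1 h4.symm with h7 | h7
  · exact absurd h7 (pow_ne_zero _ hDp)
  · exact h7

theorem spec_complex {ι : Type} [Finite ι] (x : ι → ℂ) (N : ℕ) :
    ∃ p : ℕ, p.Prime ∧ N < p ∧ ∃ t : ι → ZMod p, ∀ F : MvPolynomial ι ℤ,
      MvPolynomial.aeval x F = 0 → MvPolynomial.aeval t F = 0 := by
  have := Fintype.ofFinite ι
  set I : Ideal (MvPolynomial ι ℚ) :=
    RingHom.ker (MvPolynomial.aeval x : MvPolynomial ι ℚ →ₐ[ℚ] ℂ) with hI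
  have hI' : I ≠ ⊤ := RingHom.ker_ne_top _
  obtain ⟨M, hM, hIM⟩ := Ideal.exists_le_maximal I hI'
  let _ : Field (MvPolynomial ι ℚ ⧸ M) := Ideal.Quotient.field M
  have hft : Algebra.FiniteType ℚ (MvPolynomial ι ℚ ⧸ M) :=
    Algebra.FiniteType.of_surjective (Ideal.Quotient.mkₐ ℚ M) (Ideal.Quotient.mkₐ_surjective ℚ M)
  have hfin : Module.Finite ℚ (MvPolynomial ι ℚ ⧸ M) :=
    finite_of_finite_type_of_isJacobsonRing ℚ (MvPolynomial ι ℚ ⧸ M)
  obtain ⟨p, hp, hpN, t, ht⟩ := spec_numberField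
    (fun i : ι => Ideal.Quotient.mk M (MvPolynomial.X i)) N
  refine ⟨p, hp, hpN, t, fun F hF => ht F ?_⟩
  have h1 : MvPolynomial.map (algebraMap ℤ ℚ) F ∈ M := by
    apply hIM
    rw [hI, RingHom.mem_ker]
    rw [← hF]
    change (MvPolynomial.aeval x) (MvPolynomial.map (algebraMap ℤ ℚ) F) = _
    rw [MvPolynomial.aeval_map_algebraMap]
  have h2 : MvPolynomial.aeval (fun i : ι => Ideal.Quotient.mk M (MvPolynomial.X i)) F =
      Ideal.Quotient.mk M (MvPolynomial.map (algebraMap ℤ ℚ) F) := by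
    rw [← MvPolynomial.aeval_map_algebraMap ℚ]
    have h3 : (MvPolynomial.aeval (fun i : ι => Ideal.Quotient.mk M (MvPolynomial.X i)) :
        MvPolynomial ι ℚ →ₐ[ℚ] (MvPolynomial ι ℚ ⧸ M)) = Ideal.Quotient.mkₐ ℚ M := by
      apply MvPolynomial.algHom_ext
      intro i
      simp
    rw [h3]
    rfl
  exact h2.trans (Ideal.Quotient.eq_zero_iff_mem.2 h1)

/-- A finitely generated subring of `ℂ` maps to prime fields of arbitrarily large
characteristic. -/
theorem exists_hom_zmod (S : Finset ℂ) (N : ℕ) :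
    ∃ p : ℕ, p.Prime ∧ N < p ∧
      Nonempty (Algebra.adjoin ℤ (S : Set ℂ) →+* ZMod p) := by
  obtain ⟨p, hp, hpN, t, ht⟩ := spec_complex (fun s : S => (s : ℂ)) N
  refine ⟨p, hp, hpN, ?_⟩
  let π : MvPolynomial S ℤ →ₐ[ℤ] Algebra.adjoin ℤ (S : Set ℂ) :=
    MvPolynomial.aeval fun s : S => ⟨(s : ℂ), Algebra.subset_adjoin s.2⟩
  have hπ : ∀ F, ((π F : Algebra.adjoin ℤ (S : Set ℂ)) : ℂ) =
      MvPolynomial.aeval (fun s : S => (s : ℂ)) F := by
    intro F
    have : (Algebra.adjoin ℤ (S : Set ℂ)).val.comp π =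
        MvPolynomial.aeval (fun s : S => (s : ℂ)) := by
      apply MvPolynomial.algHom_ext
      intro i
      simp [π]
    rw [← this]
    rfl
  have hsurj : Function.Surjective π := by
    rintro ⟨y, hy⟩
    have hr : (S : Set ℂ) = Set.range (fun s : S => (s : ℂ)) := by simp
    have hy' : y ∈ (MvPolynomial.aeval (fun s : S => (s : ℂ)) : MvPolynomial S ℤ →ₐ[ℤ] ℂ).range := by
      rw [← Algebra.adjoin_range_eq_range_aeval, ← hr]
      exact hy
    obtain ⟨F, hF⟩ := hy'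
    refine ⟨F, Subtype.ext ?_⟩
    rw [hπ]
    exact hF
  have hker : RingHom.ker (π : MvPolynomial S ℤ →+* Algebra.adjoin ℤ (S : Set ℂ)) ≤
      RingHom.ker ((MvPolynomial.aeval t : MvPolynomial S ℤ →ₐ[ℤ] ZMod p) :
        MvPolynomial S ℤ →+* ZMod p) := by
    intro F hF
    rw [RingHom.mem_ker] at hF ⊢
    apply ht F
    rw [← hπ]
    have : π F = 0 := hF
    rw [this]
    rfl
  exact ⟨RingHom.liftOfSurjective _ hsurj ⟨_, hker⟩⟩

end Pool.Agent.H4.Cube
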