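import Mathlib

set_option autoImplicit false

namespace Pool.Agent.H4.Cube

open MvPolynomial

section top

variable {n : ℕ} {R : Type*} [CommRing R]

/-- The part of `f` consisting of the monomials with exponent `d` at all `i ∈ I`. -/
noncomputable def topPart (d : ℕ) (I : Finset (Fin n)) (f : MvPolynomial (Fin n) R) :
    MvPolynomial (Fin n) R :=
  ∑ κ ∈ f.support with ∀ i ∈ I, κ i = d, monomial κ (f.coeff κ)

open Classical in
theorem coeff_topPart (d : ℕ) (I : Finset (Fin n)) (f : MvPolynomial (Fin n) R)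
    (κ : Fin n →₀ ℕ) :
    (topPart d I f).coeff κ = if ∀ i ∈ I, κ i = d then f.coeff κ else 0 := by
  rw [topPart, coeff_sum]
  simp_rw [coeff_monomial]
  rw [Finset.sum_ite_eq']
  simp only [Finset.mem_filter, mem_support_iff]
  by_cases h : f.coeff κ = 0
  · simp [h]
  · simp [h]

theorem topPart_map {S : Type*} [CommRing S] (φ : R →+* S) (d : ℕ) (I : Finset (Fin n))
    (f : MvPolynomial (Fin n) R) : topPart d I (map φ f) = map φ (topPart d I f) := by
  classical
  ext κ
  rw [coeff_topPart, coeff_map, coeff_map, coeff_topPart]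
  split_ifs <;> simp

theorem le_of_coeff_pow_ne_zero {d : ℕ} {f : MvPolynomial (Fin n) R}
    (hf : ∀ κ, f.coeff κ ≠ 0 → ∀ i, κ i ≤ d) (m : ℕ) :
    ∀ κ, (f ^ m).coeff κ ≠ 0 → ∀ i, κ i ≤ d * m := by
  classical
  induction m with
  | zero =>
    intro κ h i
    rw [pow_zero, coeff_one] at h
    have : κ = 0 := by
      by_contra h'
      exact h (if_neg (Ne.symm h'))
    simp [this]
  | succ m ih =>
    intro κ h i
    rw [pow_succ, coeff_mul] at h
    obtain ⟨x, hx, hne⟩ := Finset.exists_ne_zero_of_sum_ne_zero h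
    have h1 := ih x.1 (left_ne_zero_of_mul hne) i
    have h2 := hf x.2 (right_ne_zero_of_mul hne) i
    have h3 : x.1 i + x.2 i = κ i := by
      rw [← Finset.HasAntidiagonal.mem_antidiagonal.1 hx]; rfl
    rw [← h3, mul_add, mul_one]
    exact add_le_add h1 h2

theorem coeff_topPart_pow {d : ℕ} {f : MvPolynomial (Fin n) R}
    (hf : ∀ κ, f.coeff κ ≠ 0 → ∀ i, κ i ≤ d) (I : Finset (Fin n)) (m : ℕ) :
    ∀ κ, (∀ i ∈ I, κ i = d * m) → (f ^ m).coeff κ = ((topPart d I f) ^ m).coeff κ := by
  classical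
  induction m with
  | zero => intro κ _; simp
  | succ m ih =>
    intro κ hκ
    rw [pow_succ, pow_succ, coeff_mul, coeff_mul]
    refine Finset.sum_congr rfl fun x hx => ?_
    have h3 : ∀ i, x.1 i + x.2 i = κ i := fun i => by
      rw [← Finset.HasAntidiagonal.mem_antidiagonal.1 hx]; rfl
    by_cases h : ∀ i ∈ I, x.2 i = d
    · rw [ih x.1 fun i hi => by
        have := h3 i
        rw [hκ i hi, h i hi, mul_add, mul_one] at this
        omega, coeff_topPart, if_pos h]
    · have h0 : (f ^ m).coeff x.1 * f.coeff x.2 = 0 := by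
        by_contra hne
        apply h
        intro i hi
        have h1 := le_of_coeff_pow_ne_zero hf m x.1 (left_ne_zero_of_mul hne) i
        have h2 := hf x.2 (right_ne_zero_of_mul hne) i
        have := h3 i
        rw [hκ i hi, mul_add, mul_one] at this
        omega
      rw [h0, coeff_topPart, if_neg h, mul_zero]

theorem eq_of_coeff_topPart_pow_ne_zero {d : ℕ} {f : MvPolynomial (Fin n) R}
    (I : Finset (Fin n)) (m : ℕ) :
    ∀ κ, ((topPart d I f) ^ m).coeff κ ≠ 0 → ∀ i ∈ I, κ i = d * m := by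
  classical
  induction m with
  | zero =>
    intro κ h i _
    rw [pow_zero, coeff_one] at h
    have : κ = 0 := by
      by_contra h'
      exact h (if_neg (Ne.symm h'))
    simp [this]
  | succ m ih =>
    intro κ h i hi
    rw [pow_succ, coeff_mul] at h
    obtain ⟨x, hx, hne⟩ := Finset.exists_ne_zero_of_sum_ne_zero h
    have h1 := ih x.1 (left_ne_zero_of_mul hne) i hi
    have h2 : x.2 i = d := by
      have := right_ne_zero_of_mul hne
      rw [coeff_topPart] at this
      by_contra h'
      exact this (if_neg fun hall => h' (hall i hi))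
    have h3 : x.1 i + x.2 i = κ i := by
      rw [← Finset.HasAntidiagonal.mem_antidiagonal.1 hx]; rfl
    rw [← h3, h1, h2, mul_add, mul_one]

/-- The set of indices with exponent `e`. -/
def tops (e : ℕ) (κ : Fin n →₀ ℕ) : Finset (Fin n) := Finset.univ.filter fun i => κ i = e

theorem card_tops_le {d q : ℕ} {f : MvPolynomial (Fin n) R}
    (hf : ∀ κ, f.coeff κ ≠ 0 → ∀ i, κ i ≤ d)
    (hq : ∀ κ, f.coeff κ ≠ 0 → (tops d κ).card ≤ q) (m : ℕ) (hm : m ≠ 0) (κ : Fin n →₀ ℕ)
    (h : (f ^ m).coeff κ ≠ 0) : (tops (d * m) κ).card ≤ q := by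
  classical
  have h1 := coeff_topPart_pow hf (tops (d * m) κ) m κ (fun i hi => (Finset.mem_filter.1 hi).2)
  rw [h1] at h
  have h2 : topPart d (tops (d * m) κ) f ≠ 0 := by
    intro h0
    rw [h0, zero_pow hm, coeff_zero] at h
    exact h rfl
  obtain ⟨k, hk⟩ := MvPolynomial.exists_coeff_ne_zero h2
  rw [coeff_topPart] at hk
  by_cases h3 : ∀ i ∈ tops (d * m) κ, k i = d
  · rw [if_pos h3] at hk
    refine le_trans (Finset.card_le_card ?_) (hq k hk)
    intro i hi
    exact Finset.mem_filter.2 ⟨Finset.mem_univ _, h3 i hi⟩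
  · rw [if_neg h3] at hk
    exact absurd rfl hk

end top

end Pool.Agent.H4.Cube
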