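import Pool.Agent.H4.Cube.PartD
import Pool.Agent.H4.Cube.PartE

set_option autoImplicit false

namespace Pool.Agent.H4.Cube

open MvPolynomial

variable {n : ℕ}

/-- The integer `p ^ q * (p - 1)! ^ n / ∏ (κ_i + 1)`. -/
def vwt (p q : ℕ) (κ : Fin n →₀ ℕ) : ℕ :=
  p ^ (q - (tops (p - 1) κ).card) *
    ∏ i, (if κ i = p - 1 then (p - 1).factorial else (p - 1).factorial / (κ i + 1))

theorem vwt_complex {p q : ℕ} (hp : 1 ≤ p) (κ : Fin n →₀ ℕ) (h1 : ∀ i, κ i ≤ p - 1)
    (h2 : (tops (p - 1) κ).card ≤ q) :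
    (vwt p q κ : ℂ) = (p : ℂ) ^ q * ((p - 1).factorial : ℂ) ^ n * ∏ i, (1 / ((κ i : ℂ) + 1)) := by
  have hp0 : (p : ℂ) ≠ 0 := by exact_mod_cast (by omega : p ≠ 0)
  have e1 : ∀ i, ((if κ i = p - 1 then (p - 1).factorial
      else (p - 1).factorial / (κ i + 1) : ℕ) : ℂ) =
      ((p - 1).factorial : ℂ) * (1 / ((κ i : ℂ) + 1)) * (if κ i = p - 1 then (p : ℂ) else 1) := by
    intro i
    have hk : ((κ i : ℂ) + 1) ≠ 0 := by exact_mod_cast Nat.succ_ne_zero (κ i)
    split_ifs with h
    · have : ((κ i : ℂ) + 1) = p := by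
        rw [h]
        have : (p - 1) + 1 = p := by omega
        exact_mod_cast this
      rw [this]
      field_simp
    · have hd : (κ i + 1) ∣ (p - 1).factorial := by
        apply Nat.dvd_factorial (Nat.succ_pos _)
        have := h1 i
        omega
      rw [Nat.cast_div hd (by exact_mod_cast Nat.succ_ne_zero (κ i))]
      push_cast
      ring
  rw [vwt, Nat.cast_mul, Nat.cast_pow, Nat.cast_prod]
  simp_rw [e1]
  rw [Finset.prod_mul_distrib, Finset.prod_mul_distrib, Finset.prod_const, Finset.card_univ,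
    Fintype.card_fin]
  have e2 : ∏ i, (if κ i = p - 1 then (p : ℂ) else 1) = (p : ℂ) ^ (tops (p - 1) κ).card := by
    rw [Finset.prod_ite, Finset.prod_const, Finset.prod_const_one, mul_one]
    rfl
  rw [e2]
  have e3 : (p : ℂ) ^ q = (p : ℂ) ^ (q - (tops (p - 1) κ).card) * (p : ℂ) ^ (tops (p - 1) κ).card := by
    rw [← pow_add, Nat.sub_add_cancel h2]
  rw [e3]
  ring

theorem vwt_zmod {p q : ℕ} [hp : Fact p.Prime] (κ : Fin n →₀ ℕ) (h1 : ∀ i, κ i ≤ p - 1)
    (h2 : (tops (p - 1) κ).card ≤ q) :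
    (vwt p q κ : ZMod p) = if (tops (p - 1) κ).card = q then
      (-1) ^ n * ∏ i, (if κ i = p - 1 then 1 else (((κ i + 1 : ℕ) : ZMod p))⁻¹) else 0 := by
  have hp2 := hp.out.two_le
  rw [vwt]
  split_ifs with hq
  · rw [hq, Nat.sub_self, pow_zero, one_mul]
    have e1 : ∀ i, ((if κ i = p - 1 then (p - 1).factorial
        else (p - 1).factorial / (κ i + 1) : ℕ) : ZMod p) =
        (-1) * (if κ i = p - 1 then 1 else (((κ i + 1 : ℕ) : ZMod p))⁻¹) := by
      intro i
      have hw : (((p - 1).factorial : ℕ) : ZMod p) = -1 := ZMod.wilsons_lemma p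
      split_ifs with h
      · rw [hw, mul_one]
      · have hd : (κ i + 1) ∣ (p - 1).factorial := by
          apply Nat.dvd_factorial (Nat.succ_pos _)
          have := h1 i
          omega
        have hne : ((κ i + 1 : ℕ) : ZMod p) ≠ 0 := by
          intro h0
          rw [ZMod.natCast_eq_zero_iff] at h0
          have := Nat.le_of_dvd (Nat.succ_pos _) h0
          have := h1 i
          omega
        rw [Nat.cast_div hd hne, hw, div_eq_mul_inv]
    rw [Nat.cast_prod]
    simp_rw [e1]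
    rw [Finset.prod_mul_distrib, Finset.prod_const, Finset.card_univ, Fintype.card_fin]
  · have : q - (tops (p - 1) κ).card ≠ 0 := by omega
    push_cast
    rw [CharP.cast_eq_zero, zero_pow this, zero_mul]

/-- Substituting `1` for the variables in `I`. -/
noncomputable def subOne {K : Type*} [CommRing K] (I : Finset (Fin n)) :
    MvPolynomial (Fin n) K →ₐ[K] MvPolynomial (Fin n) K :=
  aeval fun i => if i ∈ I then 1 else X i

theorem Lf_subOne_monomial {K : Type*} [Field K] (I : Finset (Fin n)) (κ : Fin n →₀ ℕ) (c : K) :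
    Lf (subOne I (monomial κ c)) = c * ∏ i, (if i ∈ I then 1 else (((κ i + 1 : ℕ) : K))⁻¹) := by
  classical
  have e : subOne I (monomial κ c) =
      monomial (Finsupp.equivFunOnFinite.symm fun i => if i ∈ I then 0 else κ i) c := by
    rw [subOne, aeval_monomial, algebraMap_eq, monomial_eq]
    congr 1
    rw [Finsupp.prod_fintype _ _ (fun i => pow_zero _), Finsupp.prod_fintype _ _ (fun i => pow_zero _)]
    refine Finset.prod_congr rfl fun i _ => ?_
    by_cases h : i ∈ I
    · simp [h]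
    · simp [h]
  rw [e, Lf_monomial]
  congr 1
  refine Finset.prod_congr rfl fun i _ => ?_
  by_cases h : i ∈ I
  · simp [h]
  · simp [h]

theorem sum_vwt_eq {p q d m : ℕ} [hp : Fact p.Prime] (hm : m ≠ 0) (hdm : d * m = p - 1)
    {f : MvPolynomial (Fin n) (ZMod p)} (hf : ∀ κ, f.coeff κ ≠ 0 → ∀ i, κ i ≤ d)
    (hq : ∀ κ, f.coeff κ ≠ 0 → (tops d κ).card ≤ q) :
    ∑ κ ∈ (f ^ m).support, (f ^ m).coeff κ * (vwt p q κ : ZMod p) =
      (-1) ^ n * ∑ I ∈ Finset.powersetCard q (Finset.univ : Finset (Fin n)),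
        Lf (subOne I ((topPart d I f) ^ m)) := by
  classical
  have hle : ∀ κ ∈ (f ^ m).support, ∀ i, κ i ≤ p - 1 := fun κ hκ i => by
    rw [← hdm]
    exact le_of_coeff_pow_ne_zero hf m κ (mem_support_iff.1 hκ) i
  have hcard : ∀ κ ∈ (f ^ m).support, (tops (p - 1) κ).card ≤ q := fun κ hκ => by
    rw [← hdm]
    exact card_tops_le hf hq m hm κ (mem_support_iff.1 hκ)
  -- left side
  have hL : ∑ κ ∈ (f ^ m).support, (f ^ m).coeff κ * (vwt p q κ : ZMod p) =
      (-1) ^ n * ∑ κ ∈ (f ^ m).support, ∑ I ∈ Finset.powersetCard q (Finset.univ : Finset (Fin n)),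
        if tops (p - 1) κ = I then (f ^ m).coeff κ *
          ∏ i, (if i ∈ I then 1 else (((κ i + 1 : ℕ) : ZMod p))⁻¹) else 0 := by
    rw [Finset.mul_sum]
    refine Finset.sum_congr rfl fun κ hκ => ?_
    rw [vwt_zmod κ (hle κ hκ) (hcard κ hκ), Finset.sum_ite_eq]
    simp only [Finset.mem_powersetCard_univ]
    split_ifs with h
    · have : ∏ i, (if κ i = p - 1 then 1 else (((κ i + 1 : ℕ) : ZMod p))⁻¹) =
          ∏ i, (if i ∈ tops (p - 1) κ then 1 else (((κ i + 1 : ℕ) : ZMod p))⁻¹) := by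
        refine Finset.prod_congr rfl fun i _ => ?_
        simp [tops]
      rw [this]
      ring
    · simp
  rw [hL, Finset.sum_comm]
  congr 1
  refine Finset.sum_congr rfl fun I hI => ?_
  have hIq : I.card = q := (Finset.mem_powersetCard_univ.1 hI)
  have hset : (f ^ m).support.filter (fun κ => tops (p - 1) κ = I) =
      ((topPart d I f) ^ m).support := by
    ext κ
    rw [Finset.mem_filter, mem_support_iff, mem_support_iff]
    constructor
    · rintro ⟨h1, h2⟩
      rw [← coeff_topPart_pow hf I m κ (fun i hi => by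
        rw [← h2] at hi
        rw [hdm]
        exact (Finset.mem_filter.1 hi).2)]
      exact h1
    · intro h
      have h1 := eq_of_coeff_topPart_pow_ne_zero I m κ h
      have h2 : (f ^ m).coeff κ ≠ 0 := by
        rw [coeff_topPart_pow hf I m κ h1]
        exact h
      refine ⟨h2, ?_⟩
      symm
      apply Finset.eq_of_subset_of_card_le
      · intro i hi
        refine Finset.mem_filter.2 ⟨Finset.mem_univ _, ?_⟩
        rw [← hdm]
        exact h1 i hi
      · rw [hIq]
        exact hcard κ (mem_support_iff.2 h2)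
  rw [← Finset.sum_filter, hset]
  conv_rhs => rw [((topPart d I f) ^ m).as_sum]
  rw [map_sum, map_sum]
  refine Finset.sum_congr rfl fun κ hκ => ?_
  rw [Lf_subOne_monomial]
  congr 1
  exact coeff_topPart_pow hf I m κ
    (eq_of_coeff_topPart_pow_ne_zero I m κ (mem_support_iff.1 hκ))

end Pool.Agent.H4.Cube
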