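import Pool.Agent.H4.Cube.PartF

set_option autoImplicit false

namespace Pool.Agent.H4.Cube

open MvPolynomial

variable {n : ℕ}

theorem affine_eq {R : Type*} [CommRing R] (l : MvPolynomial (Fin n) R) (h : l.totalDegree ≤ 1) :
    l = C (l.coeff 0) + ∑ i ∈ l.vars, C (l.coeff (Finsupp.single i 1)) * X i := by
  classical
  ext κ
  rw [coeff_add, coeff_C, coeff_sum]
  simp_rw [coeff_C_mul, coeff_X]
  by_cases h0 : κ = 0
  · subst h0
    rw [if_pos rfl, Finset.sum_eq_zero, add_zero]
    intro i _
    rw [if_neg (by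
      intro h
      have := DFunLike.congr_fun h i
      simp at this), mul_zero]
  · rw [if_neg (Ne.symm h0), zero_add]
    by_cases h1 : ∃ i, κ = Finsupp.single i 1
    · obtain ⟨i, rfl⟩ := h1
      rw [Finset.sum_eq_single i]
      · simp
      · intro j _ hj
        rw [if_neg (by
          intro h
          have := DFunLike.congr_fun h j
          simp [hj.symm] at this), mul_zero]
      · intro hi
        rw [if_pos rfl, mul_one]
        by_contra hne
        exact hi ((mem_vars_iff_mem_support i).2 ⟨Finsupp.single i 1, mem_support_iff.2 hne, by simp⟩)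
    · have hz : l.coeff κ = 0 := by
        by_contra hne
        have hdeg := le_totalDegree (mem_support_iff.2 hne)
        rw [Finsupp.sum_fintype _ _ (fun _ => rfl)] at hdeg
        obtain ⟨i, hi⟩ : ∃ i, κ i ≠ 0 := by
          by_contra hcon
          push Not at hcon
          exact h0 (Finsupp.ext hcon)
        apply h1
        refine ⟨i, Finsupp.ext fun j => ?_⟩
        have hsum : κ i + ∑ j ∈ Finset.univ.erase i, κ j ≤ 1 := by
          rw [Finset.add_sum_erase _ _ (Finset.mem_univ i)]
          exact hdeg.trans h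
        by_cases hj : j = i
        · subst hj
          rw [Finsupp.single_eq_same]
          omega
        · have : κ j ≤ ∑ j ∈ Finset.univ.erase i, κ j :=
            Finset.single_le_sum (f := fun j => κ j) (fun _ _ => Nat.zero_le _)
              (Finset.mem_erase.2 ⟨hj, Finset.mem_univ _⟩)
          rw [Finsupp.single_apply, if_neg (Ne.symm hj)]
          omega
      rw [hz, Finset.sum_eq_zero]
      intro j _
      rw [if_neg (fun h => h1 ⟨j, h.symm⟩), mul_zero]

theorem affine_coeff_ne_zero {R : Type*} [CommRing R] (l : MvPolynomial (Fin n) R)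
    (h : l.totalDegree ≤ 1) (i : Fin n) (hi : i ∈ l.vars) :
    l.coeff (Finsupp.single i 1) ≠ 0 := by
  classical
  obtain ⟨κ, hκ, hi'⟩ := (mem_vars_iff_mem_support i).1 hi
  have hdeg := le_totalDegree hκ
  rw [Finsupp.sum_fintype _ _ (fun _ => rfl)] at hdeg
  have hi0 : κ i ≠ 0 := Finsupp.mem_support_iff.1 hi'
  have : κ = Finsupp.single i 1 := by
    refine Finsupp.ext fun j => ?_
    have hsum : κ i + ∑ j ∈ Finset.univ.erase i, κ j ≤ 1 := by
      rw [Finset.add_sum_erase _ _ (Finset.mem_univ i)]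
      exact hdeg.trans h
    by_cases hj : j = i
    · subst hj
      rw [Finsupp.single_eq_same]
      omega
    · have : κ j ≤ ∑ j ∈ Finset.univ.erase i, κ j :=
        Finset.single_le_sum (f := fun j => κ j) (fun _ _ => Nat.zero_le _)
          (Finset.mem_erase.2 ⟨hj, Finset.mem_univ _⟩)
      rw [Finsupp.single_apply, if_neg (Ne.symm hj)]
      omega
  rw [← this]
  exact mem_support_iff.1 hκ

/-- Evaluation of the functional on the top part, in characteristic `p`. -/
theorem Lf_top {p d m k : ℕ} [hp : Fact p.Prime] (hdm : d * m = p - 1) (I : Finset (Fin n))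
    (c : ZMod p) (α : Fin k → ZMod p) (β : Fin k → Fin n → ZMod p) (G : Fin k → Finset (Fin n))
    (u : Fin k → ℕ) (hu : ∀ t, u t < d) (hc : c ^ m = 1)
    (hβ : ∀ t, ∀ i ∈ G t, β t i ≠ 0) (hG : ∀ s t, s ≠ t → Disjoint (G s) (G t))
    (hGI : ∀ t, Disjoint (G t) I) (hbig : n * d + d < p)
    (hpow : ∀ t, ∀ S ⊆ G t, (α t + ∑ i ∈ S, β t i) ^ (u t * m + (G t).card) =
      (α t + ∑ i ∈ S, β t i) ^ (G t).card) :
    (∏ t, ∏ j ∈ Finset.range (G t).card, (((j + 1) * d - u t : ℕ) : ZMod p)) *
      Lf (subOne I ((C c * (∏ i ∈ I, X i ^ d) *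
        ∏ t, (C (α t) + ∑ i ∈ G t, C (β t i) * X i) ^ u t) ^ m)) =
      ∏ t, ∏ j ∈ Finset.range (G t).card, (((j + 1) * d : ℕ) : ZMod p) := by
  classical
  have hp2 := hp.out.two_le
  have h1 : subOne I (∏ i ∈ I, X i ^ d : MvPolynomial (Fin n) (ZMod p)) = 1 := by
    rw [map_prod]
    apply Finset.prod_eq_one
    intro i hi
    rw [map_pow, subOne, aeval_X, if_pos hi, one_pow]
  have h2 : ∀ t, subOne I (C (α t) + ∑ i ∈ G t, C (β t i) * X i) =
      C (α t) + ∑ i ∈ G t, C (β t i) * X i := by
    intro t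
    rw [map_add, map_sum, subOne, aeval_C, algebraMap_eq]
    congr 1
    refine Finset.sum_congr rfl fun i hi => ?_
    rw [map_mul, aeval_C, algebraMap_eq, aeval_X, if_neg (Finset.disjoint_left.1 (hGI t) hi)]
  have h3 : subOne I ((C c * (∏ i ∈ I, X i ^ d) *
        ∏ t, (C (α t) + ∑ i ∈ G t, C (β t i) * X i) ^ u t) ^ m) =
      ∏ t, (C (α t) + ∑ i ∈ G t, C (β t i) * X i) ^ (u t * m) := by
    rw [map_pow, map_mul, map_mul, h1, map_prod]
    simp_rw [map_pow, h2]
    rw [mul_one, mul_pow, subOne, aeval_C, algebraMap_eq, ← C_pow, hc, C_1, one_mul,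
      ← Finset.prod_pow]
    simp_rw [← pow_mul]
  rw [h3]
  have hcard : ∀ t, (G t).card ≤ n := fun t => by
    simpa using Finset.card_le_univ (G t)
  have hN : ∀ t, ∀ k < u t * m + (G t).card, ((k + 1 : ℕ) : ZMod p) ≠ 0 := by
    intro t k hk h0
    rw [ZMod.natCast_eq_zero_iff] at h0
    have h4 := Nat.le_of_dvd (Nat.succ_pos _) h0
    have h5 := hcard t
    have h6 := hu t
    -- u m + r < p
    have h7 : u t * m ≤ (d - 1) * m := Nat.mul_le_mul_right _ (by omega)
    have h8 : (d - 1) * m = (p - 1) - m := by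
      rw [Nat.sub_mul, hdm, one_mul]
    have hd : 0 < d := by omega
    have h9 : n < m := by
      by_contra hcon
      push Not at hcon
      have : d * m ≤ d * n := Nat.mul_le_mul_left _ hcon
      rw [hdm, mul_comm] at this
      omega
    have h10 : m ≤ p - 1 := by
      rw [← hdm]; exact Nat.le_mul_of_pos_left _ hd
    omega
  have h4 := Lf_prod β G hβ hG α (fun t => u t * m) hN hpow Finset.univ
  have h5 : ∀ t, ∀ j, (((j + 1) * d - u t : ℕ) : ZMod p) = ((u t * m + j + 1 : ℕ) : ZMod p) * (d : ZMod p) := by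
    intro t j
    have h6 := hu t
    have h7 : u t ≤ (j + 1) * d := by nlinarith
    rw [Nat.cast_sub h7]
    have h8 : ((d * m : ℕ) : ZMod p) = -1 := by
      rw [hdm, Nat.cast_sub (by omega), Nat.cast_one, CharP.cast_eq_zero, zero_sub]
    push_cast at h8 ⊢
    linear_combination (-(u t : ZMod p)) * h8
  simp_rw [h5, Finset.prod_mul_distrib]
  have h6 : ∀ t, ∏ j ∈ Finset.range (G t).card, (((j + 1) * d : ℕ) : ZMod p) =
      (∏ j ∈ Finset.range (G t).card, ((j + 1 : ℕ) : ZMod p)) *
        ∏ j ∈ Finset.range (G t).card, (d : ZMod p) := by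
    intro t
    rw [← Finset.prod_mul_distrib]
    refine Finset.prod_congr rfl fun j _ => ?_
    push_cast
    ring
  simp_rw [h6, Finset.prod_mul_distrib]
  rw [← h4]
  ring

end Pool.Agent.H4.Cube
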