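import Pool.Agent.H4.Cube.PartG

set_option autoImplicit false

namespace Pool.Agent.H4.Cube

open MvPolynomial

variable {n : ℕ}

/-- `P` is a constant times `∏_{i ∈ I} X_i ^ d` times a product of powers, with exponents
`< d`, of polynomials of degree `≤ 1` in pairwise disjoint sets of variables outside `I`. -/
def Split (d : ℕ) (I : Finset (Fin n)) (P : MvPolynomial (Fin n) ℂ) : Prop :=
  ∃ (k : ℕ) (c : ℂ) (l : Fin k → MvPolynomial (Fin n) ℂ) (u : Fin k → ℕ),
    (∀ t, (l t).totalDegree ≤ 1) ∧ (∀ t, Disjoint (l t).vars I) ∧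
    (∀ s t, s ≠ t → Disjoint (l s).vars (l t).vars) ∧ (∀ t, u t < d) ∧
    P = C c * (∏ i ∈ I, X i ^ d) * ∏ t, l t ^ u t

theorem exists_lift_mv (A : Subalgebra ℤ ℂ) (P : MvPolynomial (Fin n) ℂ)
    (h : ∀ κ, P.coeff κ ∈ A) : ∃ PA : MvPolynomial (Fin n) A, map (A.val : A →+* ℂ) PA = P := by
  refine ⟨∑ κ ∈ P.support, monomial κ ⟨P.coeff κ, h κ⟩, ?_⟩
  rw [map_sum]
  conv_rhs => rw [P.as_sum]
  refine Finset.sum_congr rfl fun κ _ => ?_
  rw [map_monomial]
  rfl

theorem perI (d : ℕ) (hd : 1 ≤ d) (I : Finset (Fin n)) (P : MvPolynomial (Fin n) ℂ)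
    (h : Split d I P) : ∃ (S : Finset ℂ) (V : ℚ), 0 ≤ V ∧ (P ≠ 0 → 0 < V) ∧
      ∀ (A : Subalgebra ℤ ℂ) (_ : ∀ z ∈ S, z ∈ A) (hV : (V : ℂ) ∈ A) (p : ℕ) (_ : Fact p.Prime)
        (φ : A →+* ZMod p) (m : ℕ) (_ : d * m = p - 1) (_ : n * d + d < p)
        (PA : MvPolynomial (Fin n) A) (_ : map (A.val : A →+* ℂ) PA = P),
        Lf (subOne I ((map φ PA) ^ m)) = φ ⟨(V : ℂ), hV⟩ := by
  classical
  by_cases hP0 : P = 0
  · refine ⟨∅, 0, le_rfl, fun h => absurd hP0 h, ?_⟩
    intro A _ hV p hp φ m hdm hbig PA hPA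
    have hm : m ≠ 0 := by
      rintro rfl
      have := hp.out.two_le
      omega
    have hinj : Function.Injective (map (A.val : A →+* ℂ) : MvPolynomial (Fin n) A → _) :=
      map_injective _ Subtype.val_injective
    have : PA = 0 := by
      apply hinj
      rw [hPA, hP0, map_zero]
    rw [this, map_zero, zero_pow hm, map_zero, map_zero]
    symm
    have h0 : (⟨((0 : ℚ) : ℂ), hV⟩ : A) = 0 := Subtype.ext (by simp)
    rw [h0, map_zero]
  obtain ⟨k, c, l, u, hl, hlI, hls, hu, hP⟩ := h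
  have hrt : ∀ z : ℂ, ∃ w : ℂ, w ^ d = z := fun z => IsAlgClosed.exists_pow_nat_eq z hd
  choose rt hrt using hrt
  set α : Fin k → ℂ := fun t => (l t).coeff 0 with hα
  set β : Fin k → Fin n → ℂ := fun t i => (l t).coeff (Finsupp.single i 1) with hβ
  set S0 : Finset ℂ := {c, rt c} ∪ Finset.univ.image α ∪
    Finset.univ.image (fun x : Fin k × Fin n => β x.1 x.2) ∪
    Finset.univ.image (fun x : Fin k × Finset (Fin n) => rt (α x.1 + ∑ i ∈ x.2, β x.1 i)) with hS0
  set V : ℚ := ∏ t, ∏ j ∈ Finset.range (l t).vars.card,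
    ((((j + 1) * d : ℕ) : ℚ) / (((j + 1) * d - u t : ℕ) : ℚ)) with hVdef
  have hjd : ∀ t, ∀ j : ℕ, 0 < (j + 1) * d - u t := by
    intro t j
    have := hu t
    have h2 : d ≤ (j + 1) * d := Nat.le_mul_of_pos_left _ (Nat.succ_pos _)
    omega
  have hVpos : 0 < V := by
    apply Finset.prod_pos
    intro t _
    apply Finset.prod_pos
    intro j _
    apply div_pos
    · exact_mod_cast Nat.mul_pos (Nat.succ_pos _) hd
    · exact_mod_cast hjd t j
  refine ⟨S0 ∪ S0.image (fun z => z⁻¹), V, hVpos.le, fun _ => hVpos, ?_⟩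
  intro A hS hV p hp φ m hdm hbig PA hPA
  have hm : m ≠ 0 := by
    rintro rfl
    have := hp.out.two_le
    omega
  have hc0 : c ≠ 0 := by
    rintro rfl
    apply hP0
    rw [hP, C_0, zero_mul, zero_mul]
  have hlt0 : ∀ t, u t ≠ 0 → l t ≠ 0 := by
    intro t ht h0
    apply hP0
    rw [hP, Finset.prod_eq_zero (Finset.mem_univ t), mul_zero]
    rw [h0, zero_pow ht]
  -- membership
  have hmem : ∀ z ∈ S0, z ∈ A := fun z hz => hS z (Finset.mem_union_left _ hz)
  have hmem' : ∀ z ∈ S0, z⁻¹ ∈ A := fun z hz =>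
    hS _ (Finset.mem_union_right _ (Finset.mem_image_of_mem _ hz))
  have hφ0 : ∀ z (hz : z ∈ S0), z ≠ 0 → φ ⟨z, hmem z hz⟩ ≠ 0 := by
    intro z hz hz0 h0
    have h1 : (⟨z, hmem z hz⟩ : A) * ⟨z⁻¹, hmem' z hz⟩ = 1 := Subtype.ext (mul_inv_cancel₀ hz0)
    have h2 := congrArg φ h1
    rw [map_mul, h0, zero_mul, map_one] at h2
    exact zero_ne_one h2
  have hcS : c ∈ S0 := by simp [hS0]
  have hrcS : rt c ∈ S0 := by simp [hS0]
  have hαS : ∀ t, α t ∈ S0 := fun t => by
    rw [hS0]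
    exact Finset.mem_union_left _ (Finset.mem_union_left _ (Finset.mem_union_right _
      (Finset.mem_image_of_mem _ (Finset.mem_univ t))))
  have hβS : ∀ t i, β t i ∈ S0 := fun t i => by
    rw [hS0]
    exact Finset.mem_union_left _ (Finset.mem_union_right _
      (Finset.mem_image.2 ⟨(t, i), Finset.mem_univ _, rfl⟩))
  have hδS : ∀ t (T : Finset (Fin n)), rt (α t + ∑ i ∈ T, β t i) ∈ S0 := fun t T => by
    rw [hS0]
    exact Finset.mem_union_right _ (Finset.mem_image.2 ⟨(t, T), Finset.mem_univ _, rfl⟩)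
  set cA : A := ⟨c, hmem c hcS⟩ with hcA
  set αA : Fin k → A := fun t => ⟨α t, hmem _ (hαS t)⟩ with hαA
  set βA : Fin k → Fin n → A := fun t i => ⟨β t i, hmem _ (hβS t i)⟩ with hβA
  have hinj : Function.Injective (map (A.val : A →+* ℂ) : MvPolynomial (Fin n) A → _) :=
    map_injective _ Subtype.val_injective
  have hPA' : PA = C cA * (∏ i ∈ I, X i ^ d) *
      ∏ t, (C (αA t) + ∑ i ∈ (l t).vars, C (βA t i) * X i) ^ u t := by
    apply hinj
    rw [hPA, hP]
    simp only [map_mul, map_prod, map_pow, map_add, map_sum, map_C, map_X]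
    congr 1
    refine Finset.prod_congr rfl fun t _ => ?_
    conv_lhs => rw [affine_eq (l t) (hl t)]
    rfl
  have hmap : map φ PA = C (φ cA) * (∏ i ∈ I, X i ^ d) *
      ∏ t, (C (φ (αA t)) + ∑ i ∈ (l t).vars, C (φ (βA t i)) * X i) ^ u t := by
    rw [hPA']
    simp only [map_mul, map_prod, map_pow, map_add, map_sum, map_C, map_X]
  -- the power residues
  have hres : ∀ z (hz : z ∈ A) (hr : rt z ∈ S0), z ≠ 0 → (φ ⟨z, hz⟩) ^ m = 1 := by
    intro z hz hr hz0
    have hrz : rt z ≠ 0 := by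
      intro h0
      apply hz0
      rw [← hrt z, h0, zero_pow (by omega)]
    have h1 : (⟨z, hz⟩ : A) = (⟨rt z, hmem _ hr⟩ : A) ^ d := Subtype.ext (by
      push_cast
      exact (hrt z).symm)
    rw [h1, map_pow, ← pow_mul, hdm]
    exact ZMod.pow_card_sub_one_eq_one (hφ0 _ hr hrz)
  have key := Lf_top (p := p) (d := d) (m := m) hdm I (φ cA) (fun t => φ (αA t))
    (fun t i => φ (βA t i)) (fun t => (l t).vars) u hu (hres c _ hrcS hc0)
    (fun t i hi => hφ0 _ (hβS t i) (affine_coeff_ne_zero (l t) (hl t) i hi)) hls hlI hbig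
    (by
      intro t T hT
      have hzA : α t + ∑ i ∈ T, β t i ∈ A :=
        A.add_mem (hmem _ (hαS t)) (A.sum_mem fun i _ => hmem _ (hβS t i))
      have hz : φ (αA t) + ∑ i ∈ T, φ (βA t i) = φ ⟨α t + ∑ i ∈ T, β t i, hzA⟩ := by
        rw [← map_sum, ← map_add]
        congr 1
        apply Subtype.ext
        simp [hαA, hβA]
      rw [hz]
      by_cases hz0 : α t + ∑ i ∈ T, β t i = 0
      · have h0 : (⟨α t + ∑ i ∈ T, β t i, hzA⟩ : A) = 0 := Subtype.ext hz0
        rw [h0, map_zero]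
        by_cases hr : (l t).vars.card = 0
        · have hG : (l t).vars = ∅ := Finset.card_eq_zero.1 hr
          have hT' : T = ∅ := by
            rw [hG] at hT
            exact Finset.subset_empty.1 hT
          have hu0 : u t = 0 := by
            by_contra hne
            apply hlt0 t hne
            rw [affine_eq (l t) (hl t), hG, Finset.sum_empty, add_zero]
            rw [hT', Finset.sum_empty, add_zero] at hz0
            have : (l t).coeff 0 = 0 := hz0
            rw [this, C_0]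
          rw [hr, hu0, zero_mul, add_zero]
        · rw [zero_pow hr, zero_pow (by omega)]
      · rw [pow_add, mul_comm (u t) m, pow_mul, hres _ hzA (hδS t T) hz0, one_pow, one_mul])
  rw [← hmap] at key
  -- compare with V
  have hM : (∏ t, ∏ j ∈ Finset.range (l t).vars.card, (((j + 1) * d - u t : ℕ) : ZMod p)) ≠ 0 := by
    rw [Finset.prod_ne_zero_iff]
    intro t _
    rw [Finset.prod_ne_zero_iff]
    intro j hj h0
    rw [ZMod.natCast_eq_zero_iff] at h0
    have h1 := Nat.le_of_dvd (hjd t j) h0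
    have h2 : (l t).vars.card ≤ n := by simpa using Finset.card_le_univ (l t).vars
    have h3 : j + 1 ≤ n := by
      have := Finset.mem_range.1 hj
      omega
    have h4 : (j + 1) * d ≤ n * d := Nat.mul_le_mul_right _ h3
    omega
  have hMV : (∏ t, ∏ j ∈ Finset.range (l t).vars.card, (((j + 1) * d - u t : ℕ) : ℂ)) * (V : ℂ) =
      ∏ t, ∏ j ∈ Finset.range (l t).vars.card, (((j + 1) * d : ℕ) : ℂ) := by
    rw [hVdef]
    push_cast
    rw [← Finset.prod_mul_distrib]
    refine Finset.prod_congr rfl fun t _ => ?_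
    rw [← Finset.prod_mul_distrib]
    refine Finset.prod_congr rfl fun j _ => ?_
    have : (((j + 1) * d - u t : ℕ) : ℂ) ≠ 0 := by exact_mod_cast (hjd t j).ne'
    field_simp
  have hMA : (∏ t, ∏ j ∈ Finset.range (l t).vars.card, (((j + 1) * d - u t : ℕ) : A)) *
      ⟨(V : ℂ), hV⟩ = ∏ t, ∏ j ∈ Finset.range (l t).vars.card, (((j + 1) * d : ℕ) : A) := by
    apply Subtype.ext
    have e1 : ((∏ t, ∏ j ∈ Finset.range (l t).vars.card, (((j + 1) * d - u t : ℕ) : A) : A) : ℂ) =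
        ∏ t, ∏ j ∈ Finset.range (l t).vars.card, (((j + 1) * d - u t : ℕ) : ℂ) := by
      push_cast
      rfl
    have e2 : ((∏ t, ∏ j ∈ Finset.range (l t).vars.card, (((j + 1) * d : ℕ) : A) : A) : ℂ) =
        ∏ t, ∏ j ∈ Finset.range (l t).vars.card, (((j + 1) * d : ℕ) : ℂ) := by
      push_cast
      rfl
    rw [e2, ← hMV, ← e1]
    rfl
  have hMφ := congrArg φ hMA
  rw [map_mul, map_prod, map_prod] at hMφ
  simp_rw [map_prod, map_natCast] at hMφ
  rw [← key] at hMφ
  exact (mul_left_cancel₀ hM hMφ).symm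

end Pool.Agent.H4.Cube
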