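import Pool.Agent.H4.Cube.PartB
import Pool.Agent.H4.Cube.PartC
import Pool.Agent.H4.Cube.PartH

set_option autoImplicit false

namespace Pool.Agent.H4.Cube

open MvPolynomial MeasureTheory

variable {n : ℕ}

theorem main {d q : ℕ} (f : MvPolynomial (Fin n) ℂ) (hd : 1 ≤ d)
    (hdeg : ∀ κ ∈ f.support, ∀ i, κ i ≤ d) (hq : ∀ κ ∈ f.support, (tops d κ).card ≤ q)
    (hex : ∃ κ ∈ f.support, (tops d κ).card = q)
    (hlin : ∀ I : Finset (Fin n), I.card = q → Split d I (topPart d I f)) (N : ℕ) :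
    ∃ m, N ≤ m ∧ ∫ x in Set.Icc (0 : Fin n → ℝ) 1,
      MvPolynomial.eval (fun i => ((x i : ℝ) : ℂ)) (f ^ m) ≠ 0 := by
  classical
  have hdeg' : ∀ κ, f.coeff κ ≠ 0 → ∀ i, κ i ≤ d := fun κ h => hdeg κ (mem_support_iff.2 h)
  have hq' : ∀ κ, f.coeff κ ≠ 0 → (tops d κ).card ≤ q := fun κ h => hq κ (mem_support_iff.2 h)
  choose S V hV0 hVpos hmain using fun I : {I : Finset (Fin n) // I.card = q} =>
    perI d hd I.1 _ (hlin I.1 I.2)
  set W : ℚ := ∑ I : {I : Finset (Fin n) // I.card = q}, V I with hW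
  have hWpos : 0 < W := by
    obtain ⟨κ, hκ, hκq⟩ := hex
    have h1 : topPart d (tops d κ) f ≠ 0 := by
      intro h0
      have h2 := coeff_topPart d (tops d κ) f κ
      have h3 : ∀ i ∈ tops d κ, κ i = d := fun i hi => (Finset.mem_filter.1 hi).2
      rw [h0, coeff_zero, if_pos h3] at h2
      exact mem_support_iff.1 hκ h2.symm
    have h2 : 0 < V ⟨tops d κ, hκq⟩ := hVpos ⟨tops d κ, hκq⟩ h1
    exact lt_of_lt_of_le h2 (Finset.single_le_sum (f := V) (fun I _ => hV0 I) (Finset.mem_univ _))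
  have hWC : (W : ℂ) ≠ 0 := by exact_mod_cast hWpos.ne'
  set ζ : ℂ := Complex.exp (2 * Real.pi * Complex.I / d) with hζ
  have hprim : IsPrimitiveRoot ζ d := Complex.isPrimitiveRoot_exp d (by omega)
  set St : Finset ℂ := (Finset.univ.biUnion S) ∪ Finset.univ.image (fun I => (V I : ℂ)) ∪
    {((W : ℂ))⁻¹, ζ} ∪ Finset.univ.image (fun j : Fin d => (1 - ζ ^ (j : ℕ))⁻¹) ∪
    f.support.image f.coeff with hSt
  obtain ⟨p, hp, hpN, ⟨φ⟩⟩ := exists_hom_zmod St (max (n * d + d) (d * N + d + 1))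
  have hpf : Fact p.Prime := ⟨hp⟩
  set A : Subalgebra ℤ ℂ := Algebra.adjoin ℤ (St : Set ℂ) with hA
  have hSA : ∀ z ∈ St, z ∈ A := fun z hz => Algebra.subset_adjoin (Finset.mem_coe.2 hz)
  have hSI : ∀ I, ∀ z ∈ S I, z ∈ A := fun I z hz => hSA z (by
    rw [hSt]
    exact Finset.mem_union_left _ (Finset.mem_union_left _ (Finset.mem_union_left _
      (Finset.mem_union_left _ (Finset.mem_biUnion.2 ⟨I, Finset.mem_univ _, hz⟩)))))
  have hVA : ∀ I, (V I : ℂ) ∈ A := fun I => hSA _ (by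
    rw [hSt]
    exact Finset.mem_union_left _ (Finset.mem_union_left _ (Finset.mem_union_left _
      (Finset.mem_union_right _ (Finset.mem_image_of_mem _ (Finset.mem_univ I))))))
  have hWA : ((W : ℂ))⁻¹ ∈ A := hSA _ (by
    rw [hSt]
    exact Finset.mem_union_left _ (Finset.mem_union_left _ (Finset.mem_union_right _ (by simp))))
  have hζA : ζ ∈ A := hSA _ (by
    rw [hSt]
    exact Finset.mem_union_left _ (Finset.mem_union_left _ (Finset.mem_union_right _ (by simp))))
  have hjA : ∀ j : Fin d, (1 - ζ ^ (j : ℕ))⁻¹ ∈ A := fun j => hSA _ (by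
    rw [hSt]
    exact Finset.mem_union_left _ (Finset.mem_union_right _
      (Finset.mem_image_of_mem _ (Finset.mem_univ j))))
  have hfA : ∀ κ, f.coeff κ ∈ A := fun κ => by
    by_cases h : f.coeff κ = 0
    · rw [h]; exact A.zero_mem
    · exact hSA _ (by
        rw [hSt]
        exact Finset.mem_union_right _ (Finset.mem_image_of_mem _ (mem_support_iff.2 h)))
  have hp1 : n * d + d < p := lt_of_le_of_lt (le_max_left _ _) hpN
  have hp2 : d * N + d + 1 < p := lt_of_le_of_lt (le_max_right _ _) hpN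
  -- d divides p - 1
  have hdvd : d ∣ p - 1 := by
    have hζd : (φ ⟨ζ, hζA⟩) ^ d = 1 := by
      rw [← map_pow]
      have : (⟨ζ, hζA⟩ : A) ^ d = 1 := Subtype.ext (by
        push_cast
        exact hprim.pow_eq_one)
      rw [this, map_one]
    have hζ0 : φ ⟨ζ, hζA⟩ ≠ 0 := by
      intro h0
      rw [h0, zero_pow (by omega)] at hζd
      exact zero_ne_one hζd
    have hord : ∀ j, 0 < j → j < d → (φ ⟨ζ, hζA⟩) ^ j ≠ 1 := by
      intro j hj0 hjd h1
      have h2 : (1 : ℂ) - ζ ^ j ≠ 0 := by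
        intro h3
        have h4 : ζ ^ j = 1 := (sub_eq_zero.1 h3).symm
        exact absurd (Nat.le_of_dvd hj0 (hprim.dvd_of_pow_eq_one j h4)) (by omega)
      have h3 : ((1 : A) - (⟨ζ, hζA⟩ : A) ^ j) * ⟨(1 - ζ ^ j)⁻¹, hjA ⟨j, hjd⟩⟩ = 1 :=
        Subtype.ext (by
          push_cast
          exact mul_inv_cancel₀ h2)
      have h4 := congrArg φ h3
      rw [map_mul, map_sub, map_one, map_pow, h1, sub_self, zero_mul] at h4
      exact zero_ne_one h4
    have hprimp : IsPrimitiveRoot (φ ⟨ζ, hζA⟩) d :=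
      IsPrimitiveRoot.mk_of_lt _ (by omega) hζd hord
    exact hprimp.dvd_of_pow_eq_one _ (ZMod.pow_card_sub_one_eq_one hζ0)
  obtain ⟨m, hdm'⟩ := hdvd
  have hdm : d * m = p - 1 := hdm'.symm
  have hmN : N ≤ m := by
    by_contra hcon
    push Not at hcon
    have : d * m ≤ d * N := Nat.mul_le_mul_left _ hcon.le
    omega
  have hm : m ≠ 0 := by
    rintro rfl
    omega
  refine ⟨m, hmN, ?_⟩
  intro hint
  rw [integral_eval] at hint
  -- integer combination over ℂ
  have hC : ∑ κ ∈ (f ^ m).support, (f ^ m).coeff κ * (vwt p q κ : ℂ) = 0 := by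
    have : ∑ κ ∈ (f ^ m).support, (f ^ m).coeff κ * (vwt p q κ : ℂ) =
        (p : ℂ) ^ q * ((p - 1).factorial : ℂ) ^ n *
          ∑ κ ∈ (f ^ m).support, (f ^ m).coeff κ * ∏ i, (1 / ((κ i : ℂ) + 1)) := by
      rw [Finset.mul_sum]
      refine Finset.sum_congr rfl fun κ hκ => ?_
      rw [vwt_complex (by omega) κ
        (fun i => by
          rw [← hdm]
          exact le_of_coeff_pow_ne_zero hdeg' m κ (mem_support_iff.1 hκ) i)
        (by
          rw [← hdm]
          exact card_tops_le hdeg' hq' m hm κ (mem_support_iff.1 hκ))]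
      ring
    rw [this, hint, mul_zero]
  -- lift to A
  obtain ⟨fA, hfA'⟩ := exists_lift_mv A f hfA
  have hvalinj : Function.Injective (A.val : A →+* ℂ) := Subtype.val_injective
  have hcoe : ∀ κ, (A.val : A →+* ℂ) ((fA ^ m).coeff κ) = (f ^ m).coeff κ := by
    intro κ
    rw [← coeff_map, map_pow, hfA']
  have hsupp : (fA ^ m).support = (f ^ m).support := by
    ext κ
    rw [mem_support_iff, mem_support_iff, ← hcoe κ, Ne, Ne, map_eq_zero_iff _ hvalinj]
  have hA0 : ∑ κ ∈ (fA ^ m).support, (fA ^ m).coeff κ * (vwt p q κ : A) = 0 := by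
    apply hvalinj
    rw [map_sum, map_zero, hsupp]
    simp_rw [map_mul, hcoe, map_natCast]
    exact hC
  set fp : MvPolynomial (Fin n) (ZMod p) := map φ fA with hfp
  have hcoep : ∀ κ, (fp ^ m).coeff κ = φ ((fA ^ m).coeff κ) := by
    intro κ
    rw [hfp, ← map_pow, coeff_map]
  have hp0 : ∑ κ ∈ (fp ^ m).support, (fp ^ m).coeff κ * (vwt p q κ : ZMod p) = 0 := by
    have h1 := congrArg φ hA0
    rw [map_sum, map_zero] at h1
    simp_rw [map_mul, map_natCast, ← hcoep] at h1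
    rw [← h1]
    apply Finset.sum_subset
    · intro κ hκ
      rw [mem_support_iff, hcoep] at hκ
      rw [mem_support_iff]
      intro h0
      rw [h0, map_zero] at hκ
      exact hκ rfl
    · intro κ _ hκ
      rw [notMem_support_iff.1 hκ, zero_mul]
  -- hypotheses over ZMod p
  have hfpf : ∀ κ, fp.coeff κ ≠ 0 → f.coeff κ ≠ 0 := by
    intro κ hκ h0
    apply hκ
    rw [hfp, coeff_map]
    have : fA.coeff κ = 0 := by
      apply hvalinj
      rw [← coeff_map, hfA', h0, map_zero]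
    rw [this, map_zero]
  rw [sum_vwt_eq hm hdm (fun κ h => hdeg' κ (hfpf κ h)) (fun κ h => hq' κ (hfpf κ h))] at hp0
  have h1 : ∑ I ∈ Finset.powersetCard q (Finset.univ : Finset (Fin n)),
      Lf (subOne I ((topPart d I fp) ^ m)) = 0 := by
    rcases mul_eq_zero.1 hp0 with h | h
    · exact absurd h (pow_ne_zero _ (neg_ne_zero.2 one_ne_zero))
    · exact h
  have h2 : ∀ I : {I : Finset (Fin n) // I.card = q},
      Lf (subOne I.1 ((topPart d I.1 fp) ^ m)) = φ ⟨(V I : ℂ), hVA I⟩ := by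
    intro I
    have := hmain I A (hSI I) (hVA I) p hpf φ m hdm hp1 (topPart d I.1 fA) (by
      rw [← topPart_map, hfA'])
    rw [← this, hfp, topPart_map]
  have h3 : ∑ I : {I : Finset (Fin n) // I.card = q},
      Lf (subOne I.1 ((topPart d I.1 fp) ^ m)) = 0 := by
    rw [← h1]
    symm
    apply Finset.sum_subtype
    intro I
    exact Finset.mem_powersetCard_univ
  simp_rw [h2] at h3
  rw [← map_sum] at h3
  have h4 : (∑ I : {I : Finset (Fin n) // I.card = q}, (⟨(V I : ℂ), hVA I⟩ : A)) *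
      ⟨((W : ℂ))⁻¹, hWA⟩ = 1 := by
    apply Subtype.ext
    have e1 : ((∑ I : {I : Finset (Fin n) // I.card = q}, (⟨(V I : ℂ), hVA I⟩ : A) : A) : ℂ) =
        (W : ℂ) := by
      rw [hW]
      push_cast
      rfl
    push_cast [e1]
    exact mul_inv_cancel₀ hWC
  have h5 := congrArg φ h4
  rw [map_mul, h3, zero_mul, map_one] at h5
  exact zero_ne_one h5

end Pool.Agent.H4.Cube
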