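import Pool.Agent.H4.Cube.PartI

set_option autoImplicit false

namespace Pool.Agent.H4.Cube

open MvPolynomial MeasureTheory

variable {n : ℕ}

/-- Removing the exponents in `I`. -/
theorem topPart_factor (d : ℕ) (I : Finset (Fin n)) (f : MvPolynomial (Fin n) ℂ) :
    topPart d I f = (∏ i ∈ I, X i ^ d) * subOne I (topPart d I f) := by
  classical
  have key : ∀ κ : Fin n →₀ ℕ, (∀ i ∈ I, κ i = d) → ∀ c : ℂ,
      monomial κ c = (∏ i ∈ I, X i ^ d) * subOne I (monomial κ c) := by
    intro κ hκ c
    rw [subOne, aeval_monomial, algebraMap_eq, monomial_eq,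
      Finsupp.prod_fintype _ _ (fun i => pow_zero _), Finsupp.prod_fintype _ _ (fun i => pow_zero _)]
    rw [mul_left_comm]
    congr 1
    have e1 : ∏ i ∈ I, (X i ^ d : MvPolynomial (Fin n) ℂ) =
        ∏ i, (if i ∈ I then X i ^ d else 1) := by
      rw [Finset.prod_ite_mem, Finset.univ_inter]
    rw [e1, ← Finset.prod_mul_distrib]
    refine Finset.prod_congr rfl fun i _ => ?_
    by_cases h : i ∈ I
    · simp [h, hκ i h]
    · simp [h]
  have e : topPart d I f = ∑ κ ∈ f.support with ∀ i ∈ I, κ i = d, monomial κ (f.coeff κ) := rfl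
  rw [e, map_sum, Finset.mul_sum]
  refine Finset.sum_congr rfl fun κ hκ => key κ (Finset.mem_filter.1 hκ).2 _

theorem vars_subOne (I : Finset (Fin n)) (P : MvPolynomial (Fin n) ℂ) :
    Disjoint (subOne I P).vars I := by
  classical
  rw [P.as_sum, map_sum, Finset.disjoint_left]
  intro i hi
  have := vars_sum_subset P.support (fun κ => subOne I (monomial κ (P.coeff κ))) hi
  obtain ⟨κ, _, hκ⟩ := Finset.mem_biUnion.1 this
  rw [subOne, aeval_monomial, algebraMap_eq, Finsupp.prod_fintype _ _ (fun i => pow_zero _)] at hκ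
  rcases Finset.mem_union.1 (vars_mul _ _ hκ) with h | h
  · simp at h
  · have h1 := vars_prod (s := Finset.univ)
      (fun j => (if j ∈ I then 1 else X j : MvPolynomial (Fin n) ℂ) ^ κ j) h
    obtain ⟨j, _, hj⟩ := Finset.mem_biUnion.1 h1
    have h2 := vars_pow _ _ hj
    by_cases hjI : j ∈ I
    · rw [if_pos hjI] at h2
      simp at h2
    · rw [if_neg hjI, vars_X, Finset.mem_singleton] at h2
      rw [h2]
      exact hjI

/-- Degrees of the cofactor. -/
theorem totalDegree_subOne_topPart {d q D : ℕ} (f : MvPolynomial (Fin n) ℂ)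
    (hD : f.totalDegree ≤ D) (I : Finset (Fin n)) (hI : I.card = q) :
    (subOne I (topPart d I f)).totalDegree ≤ D - d * q := by
  classical
  have e : topPart d I f = ∑ κ ∈ f.support with ∀ i ∈ I, κ i = d, monomial κ (f.coeff κ) := rfl
  rw [e, map_sum]
  refine (totalDegree_finsetSum _ _).trans (Finset.sup_le fun κ hκ => ?_)
  obtain ⟨hκs, hκI⟩ := Finset.mem_filter.1 hκ
  rw [subOne, aeval_monomial, algebraMap_eq, Finsupp.prod_fintype _ _ (fun i => pow_zero _)]
  refine (totalDegree_mul _ _).trans ?_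
  rw [totalDegree_C, zero_add]
  refine (totalDegree_finsetProd _ _).trans ?_
  have h1 : ∀ i : Fin n, ((if i ∈ I then 1 else X i : MvPolynomial (Fin n) ℂ) ^ κ i).totalDegree ≤
      if i ∈ I then 0 else κ i := by
    intro i
    by_cases h : i ∈ I
    · simp [h]
    · simp [h]
  refine (Finset.sum_le_sum fun i _ => h1 i).trans ?_
  have h2 : ∑ i, κ i ≤ D := by
    have := le_totalDegree hκs
    rw [Finsupp.sum_fintype _ _ (fun _ => rfl)] at this
    exact this.trans hD
  have h3 : ∑ i, κ i = ∑ i, (if i ∈ I then 0 else κ i) + d * q := by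
    have : ∑ i, κ i = ∑ i, ((if i ∈ I then 0 else κ i) + (if i ∈ I then d else 0)) := by
      refine Finset.sum_congr rfl fun i _ => ?_
      by_cases h : i ∈ I
      · simp [h, hκI i h]
      · simp [h]
    rw [this, Finset.sum_add_distrib]
    congr 1
    rw [Finset.sum_ite_mem, Finset.univ_inter, Finset.sum_const, hI, smul_eq_mul, mul_comm]
  omega

/-- The cofactor only involves exponents `< d`. -/
theorem coeff_subOne_topPart {d q : ℕ} (f : MvPolynomial (Fin n) ℂ)
    (hdeg : ∀ κ ∈ f.support, ∀ i, κ i ≤ d) (hq : ∀ κ ∈ f.support, (tops d κ).card ≤ q)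
    (I : Finset (Fin n)) (hI : I.card = q) (i : Fin n)
    (hi : 1 ≤ d) : degreeOf i (subOne I (topPart d I f)) < d := by
  classical
  have e : topPart d I f = ∑ κ ∈ f.support with ∀ i ∈ I, κ i = d, monomial κ (f.coeff κ) := rfl
  rw [e, map_sum]
  refine lt_of_le_of_lt (degreeOf_sum_le i _ _) ?_
  rw [Finset.sup_lt_iff (by exact hi)]
  intro κ hκ
  obtain ⟨hκs, hκI⟩ := Finset.mem_filter.1 hκ
  rw [subOne, aeval_monomial, algebraMap_eq, Finsupp.prod_fintype _ _ (fun i => pow_zero _)]
  refine lt_of_le_of_lt (degreeOf_mul_le _ _ _) ?_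
  rw [degreeOf_C, zero_add]
  refine lt_of_le_of_lt (degreeOf_prod_le _ _ _) ?_
  have h1 : ∀ j : Fin n, degreeOf i ((if j ∈ I then 1 else X j : MvPolynomial (Fin n) ℂ) ^ κ j) ≤
      if j = i ∧ j ∉ I then κ j else 0 := by
    intro j
    refine (degreeOf_pow_le _ _ _).trans ?_
    by_cases h : j ∈ I
    · simp [h, degreeOf_one]
    · by_cases hji : j = i
      · subst hji
        simp [h]
      · simp [h, hji, degreeOf_X, Ne.symm hji]
  refine lt_of_le_of_lt (Finset.sum_le_sum fun j _ => h1 j) ?_
  by_cases hiI : i ∈ I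
  · rw [Finset.sum_eq_zero]
    · exact hi
    · intro j _
      rw [if_neg]
      rintro ⟨rfl, h⟩
      exact h hiI
  · rw [Finset.sum_eq_single i]
    · rw [if_pos ⟨rfl, hiI⟩]
      refine lt_of_le_of_ne (hdeg κ hκs i) ?_
      intro hκi
      have h2 : insert i I ⊆ tops d κ := by
        intro j hj
        refine Finset.mem_filter.2 ⟨Finset.mem_univ _, ?_⟩
        rcases Finset.mem_insert.1 hj with rfl | hj
        · exact hκi
        · exact hκI j hj
      have h3 := (Finset.card_le_card h2).trans (hq κ hκs)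
      rw [Finset.card_insert_of_notMem hiI, hI] at h3
      omega
    · intro j _ hj
      rw [if_neg]
      rintro ⟨h, _⟩
      exact hj h
    · intro h
      exact absurd (Finset.mem_univ _) h

/-- The top part splits if `d = 1` or if the total degree is at most `d q + 1`. -/
theorem split_of_small {d q : ℕ} (f : MvPolynomial (Fin n) ℂ) (hd : 1 ≤ d)
    (hdeg : ∀ κ ∈ f.support, ∀ i, κ i ≤ d) (hq : ∀ κ ∈ f.support, (tops d κ).card ≤ q)
    (hsmall : d = 1 ∨ f.totalDegree ≤ d * q + 1) (I : Finset (Fin n)) (hI : I.card = q) :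
    Split d I (topPart d I f) := by
  classical
  by_cases hd1 : d = 1
  · -- the cofactor is constant
    have h1 : (subOne I (topPart d I f)) = C ((subOne I (topPart d I f)).coeff 0) := by
      rw [← totalDegree_eq_zero_iff_eq_C]
      rw [totalDegree_eq_zero_iff]
      intro κ hκ i
      have h2 := coeff_subOne_topPart f hdeg hq I hI i hd
      have h3 : κ i ≤ degreeOf i (subOne I (topPart d I f)) := monomial_le_degreeOf i hκ
      omega
    refine ⟨0, (subOne I (topPart d I f)).coeff 0, fun t => t.elim0, fun t => t.elim0,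
      fun t => t.elim0, fun t => t.elim0, fun t => t.elim0, fun t => t.elim0, ?_⟩
    rw [Finset.univ_eq_empty, Finset.prod_empty, mul_one, ← h1, mul_comm]
    exact topPart_factor d I f
  · have hs : f.totalDegree ≤ d * q + 1 := by
      rcases hsmall with h | h
      · exact absurd h hd1
      · exact h
    refine ⟨1, 1, fun _ => subOne I (topPart d I f), fun _ => 1, ?_, ?_, ?_, ?_, ?_⟩
    · intro _
      exact (totalDegree_subOne_topPart f hs I hI).trans (by omega)
    · intro _
      exact vars_subOne I _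
    · intro s t hst
      exact absurd (Subsingleton.elim s t) hst
    · intro _
      change 1 < d
      omega
    · rw [C_1, one_mul, Fin.prod_univ_one, pow_one]
      exact topPart_factor d I f

/-- A nonzero polynomial with exponents at most `d`, at most `q` of them equal to `d` in each
monomial, with equality for some monomial, and `d = 1` or total degree at most `d q + 1`. -/
theorem small {d q : ℕ} (f : MvPolynomial (Fin n) ℂ) (hd : 1 ≤ d)
    (hdeg : ∀ κ ∈ f.support, ∀ i, κ i ≤ d) (hq : ∀ κ ∈ f.support, (tops d κ).card ≤ q)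
    (hex : ∃ κ ∈ f.support, (tops d κ).card = q)
    (hsmall : d = 1 ∨ f.totalDegree ≤ d * q + 1) (N : ℕ) :
    ∃ m, N ≤ m ∧ ∫ x in Set.Icc (0 : Fin n → ℝ) 1,
      MvPolynomial.eval (fun i => ((x i : ℝ) : ℂ)) (f ^ m) ≠ 0 :=
  main f hd hdeg hq hex (fun I hI => split_of_small f hd hdeg hq hsmall I hI) N

/-- Every nonzero polynomial of total degree at most `3`, in any number of variables. -/
theorem cubic (f : MvPolynomial (Fin n) ℂ) (hf : f ≠ 0) (h3 : f.totalDegree ≤ 3) (N : ℕ) :
    ∃ m, N ≤ m ∧ ∫ x in Set.Icc (0 : Fin n → ℝ) 1,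
      MvPolynomial.eval (fun i => ((x i : ℝ) : ℂ)) (f ^ m) ≠ 0 := by
  classical
  have hne : f.support.Nonempty := by
    rw [Finset.nonempty_iff_ne_empty]
    exact fun h => hf (support_eq_empty.1 h)
  -- the largest exponent
  set e : ℕ := f.support.sup fun κ => Finset.univ.sup fun i => κ i with he
  have hexp : ∀ κ ∈ f.support, ∀ i, κ i ≤ e := fun κ hκ i =>
    (Finset.le_sup (f := fun i => κ i) (Finset.mem_univ i)).trans
      (Finset.le_sup (f := fun κ : Fin n →₀ ℕ => Finset.univ.sup fun i => κ i) hκ)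
  set d : ℕ := max e 1 with hd
  have hd1 : 1 ≤ d := le_max_right _ _
  have hdeg : ∀ κ ∈ f.support, ∀ i, κ i ≤ d := fun κ hκ i => (hexp κ hκ i).trans (le_max_left _ _)
  set q : ℕ := f.support.sup fun κ => (tops d κ).card with hq
  have hqle : ∀ κ ∈ f.support, (tops d κ).card ≤ q := fun κ hκ =>
    Finset.le_sup (f := fun κ => (tops d κ).card) hκ
  obtain ⟨κ₀, hκ₀, hκ₀q⟩ := Finset.exists_mem_eq_sup f.support hne fun κ => (tops d κ).card
  refine small f hd1 hdeg hqle ⟨κ₀, hκ₀, hκ₀q.symm⟩ ?_ N
  by_cases h1 : d = 1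
  · exact Or.inl h1
  right
  have hd2 : 2 ≤ d := by omega
  have hed : d = e := by
    rw [hd]
    apply max_eq_left
    by_contra h
    push Not at h
    have : d = 1 := by rw [hd]; exact max_eq_right h.le
    exact h1 this
  -- some exponent equals d
  have hq1 : 1 ≤ q := by
    obtain ⟨κ, hκ, hκe⟩ := Finset.exists_mem_eq_sup f.support hne
      fun κ => Finset.univ.sup fun i => κ i
    have hn : (Finset.univ : Finset (Fin n)).Nonempty := by
      rw [Finset.nonempty_iff_ne_empty]
      intro h0
      have h5 : e = Finset.univ.sup fun i => κ i := hκe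
      rw [h0, Finset.sup_empty] at h5
      have h6 : e = 0 := h5
      omega
    obtain ⟨i, _, hi⟩ := Finset.exists_mem_eq_sup Finset.univ hn fun i => κ i
    have h2 : κ i = d := by
      rw [hed, he, hκe, hi]
    have h3 : 1 ≤ (tops d κ).card :=
      Finset.card_pos.2 ⟨i, Finset.mem_filter.2 ⟨Finset.mem_univ _, h2⟩⟩
    exact h3.trans (hqle κ hκ)
  have : 2 ≤ d * q := le_trans hd2 (Nat.le_mul_of_pos_right _ hq1)
  omega

end Pool.Agent.H4.Cube
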